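import Mathlib
import Pool.Agent.W664.Fill.Cal

/-!
# Fillings of the circle: turning of the gradients of distance functions. Definitions
-/

set_option autoImplicit false

open Finset Real MeasureTheory Filter Topology Set

namespace Pool.Agent.R248.FA

open Pool.Agent.H115R3.Filling Pool.Agent.W664.Fill

/-- The Riemannian area density `√(E G - F²)`. -/
noncomputable def dens (g : RiemMetric) (x : ℝ × ℝ) : ℝ := √(g.E x * g.G x - g.F x ^ 2)

/-- The gradient of `f` at the point `x` of the square (with respect to the metric `g`) has length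
`r ≥ 0` and makes the oriented angle `φ` with the first coordinate direction: in the oriented
orthonormal coframe `√E dx + (F / √E) dy`, `√((E G - F²) / E) dy` the differential of `f` has the
coordinates `r cos φ`, `r sin φ`. -/
def GradPolar (g : RiemMetric) (f : ℝ × ℝ → ℝ) (x : ℝ × ℝ) (r φ : ℝ) : Prop :=
  0 ≤ r ∧
  fderiv ℝ f x (1, 0) = r * cos φ * √(g.E x) ∧
  fderiv ℝ f x (0, 1) = r * cos φ * (g.F x / √(g.E x)) + r * sin φ * (dens g x / √(g.E x))

/-- Turning always counterclockwise from the gradient of `f 0` to that of `f 1`, …, to that of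
`f N`, one can make exactly `w` turns (where `f N = f 0` below). For `w = 1`: the gradients of
`f 0, …, f (N - 1)` at `x` are in counterclockwise cyclic order. -/
def Turns (g : RiemMetric) (N : ℕ) (f : ℕ → ℝ × ℝ → ℝ) (x : ℝ × ℝ) (w : ℝ) : Prop :=
  ∃ r φ : ℕ → ℝ, (∀ j ≤ N, GradPolar g (f j) x (r j) (φ j)) ∧ (∀ j < N, φ j ≤ φ (j + 1)) ∧
    φ N = φ 0 + 2 * π * w

section

variable {M : Type} [MetricSpace M] (S : OrientedSurface M)

/-- `u 0, …, u (N - 1)`, `u N = u 0` are `1`-Lipschitz functions on the surface which extend the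
distance functions of `N` equally spaced points of the boundary circle. -/
structure Extends (N : ℕ) (u : ℕ → M → ℝ) : Prop where
  lip : ∀ j x y, |u j x - u j y| ≤ dist x y
  bdry : ∀ j, ∀ t : ℝ, u j (S.boundary (t : AddCircle (2 * π))) =
    dist ((2 * π * j / N : ℝ) : AddCircle (2 * π)) (t : AddCircle (2 * π))
  closed : u N = u 0

/-- The functions `u j` in the `k`-th chart. -/
def inChart (u : ℕ → M → ℝ) (k : Fin S.faces) (j : ℕ) (p : ℝ × ℝ) : ℝ := u j (S.chart k p)

/-- The Riemannian area of the union of the sets `B k` of the faces. -/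
noncomputable def areaOf (B : Fin S.faces → Set (ℝ × ℝ)) : ℝ :=
  ∑ k, ∫ x in Sq ∩ B k, dens (S.metric k) x

/-- Outside of the sets `B k` (of the faces) the gradients of `u 0, …, u (N - 1)` are almost
everywhere in counterclockwise cyclic order. -/
def OrderedOff (N : ℕ) (u : ℕ → M → ℝ) (B : Fin S.faces → Set (ℝ × ℝ)) : Prop :=
  ∀ k, ∀ᵐ x ∂(volume.restrict Sq), x ∉ B k → Turns (S.metric k) N (inChart S u k) x 1

end

end Pool.Agent.R248.FA
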