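import Mathlib
import Pool.Agent.W664.Fill.Cal
import Pool.Agent.W664.Fill.Poly

/-!
# Fillings of the circle: the flux of the distance functions of equally spaced boundary points
-/

set_option autoImplicit false

open Finset Real Filter Topology Set

namespace Pool.Agent.R248.FA

open Pool.Agent.H115R3.Filling Pool.Agent.W664.Fill

/-- Distance of `m` to the multiples of `2 N`. -/
def um (N m : ℕ) : ℕ := min (m % (2 * N)) (2 * N - m % (2 * N))

theorem um_per (N m : ℕ) : um N (m + 2 * N) = um N m := by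
  unfold um
  rw [Nat.add_mod_right]

theorem um_lo {N m : ℕ} (hN : 0 < N) (h : m ≤ N) : um N m = m := by
  unfold um
  rw [Nat.mod_eq_of_lt (by omega)]
  omega

theorem um_hi {N m : ℕ} (h : N ≤ m) (h' : m ≤ 2 * N) (hN : 0 < N) : um N m = 2 * N - m := by
  unfold um
  rcases Nat.lt_or_ge m (2 * N) with h1 | h1
  · rw [Nat.mod_eq_of_lt h1]
    omega
  · have e : m = 2 * N := le_antisymm h' h1
    rw [e, Nat.mod_self]
    omega

theorem rho_nat (x : ℝ) (j : ℕ) : rho (x + j * (2 * π)) = rho x := by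
  induction j with
  | zero => simp
  | succ j ih =>
    have : x + ((j + 1 : ℕ) : ℝ) * (2 * π) = (x + j * (2 * π)) + 2 * π := by push_cast; ring
    rw [this, rho_periodic, ih]

section

variable {N : ℕ} (hN : 0 < N)

include hN

theorem rho_grid' (M : ℕ) {x : ℝ} (hx0 : 0 ≤ x) (hx1 : x ≤ 1) :
    rho ((M + x) * (π / N)) = π / N * (um N M + x * ((um N (M + 1) : ℝ) - um N M)) := by
  have hNr : (0 : ℝ) < N := by exact_mod_cast hN
  set δ : ℝ := π / N with hδ
  have hδ0 : 0 < δ := by positivity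
  have hπ : π = N * δ := by rw [hδ]; field_simp
  set r := M % (2 * N) with hr
  have hrlt : r < 2 * N := Nat.mod_lt M (by omega)
  have hM : (M : ℝ) = r + (2 * N : ℝ) * (M / (2 * N) : ℕ) := by
    have := Nat.mod_add_div M (2 * N)
    rw [← hr] at this
    have h2 : ((r + 2 * N * (M / (2 * N)) : ℕ) : ℝ) = (M : ℝ) := by rw [this]
    push_cast at h2
    push_cast
    linarith
  have e1 : (M + x) * δ = (r + x) * δ + ((M / (2 * N) : ℕ) : ℝ) * (2 * π) := by
    rw [hM, hπ]; ring
  rw [e1, rho_nat]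
  have hrr : (r : ℝ) < 2 * N := by exact_mod_cast hrlt
  have hnext : (M + 1) % (2 * N) = if r + 1 < 2 * N then r + 1 else 0 := by
    split_ifs with h
    · rw [Nat.add_mod, Nat.mod_eq_of_lt (a := 1) (by omega), ← hr, Nat.mod_eq_of_lt h]
    · have e0 : r + 1 = 2 * N := by omega
      rw [Nat.add_mod, Nat.mod_eq_of_lt (a := 1) (by omega), ← hr, e0, Nat.mod_self]
  rcases Nat.lt_or_ge r N with h | h
  · have hr2 : (r : ℝ) + 1 ≤ N := by exact_mod_cast h
    have u1 : um N M = r := by unfold um; rw [← hr]; omega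
    have u2 : um N (M + 1) = r + 1 := by
      unfold um; rw [hnext, if_pos (by omega)]; omega
    rw [u1, u2, rho_eq_self (by positivity) (by rw [hπ]; nlinarith)]
    push_cast; ring
  · have hr2 : (N : ℝ) ≤ r := by exact_mod_cast h
    have hr3 : (r : ℝ) + 1 ≤ 2 * N := by exact_mod_cast hrlt
    have u1 : um N M = 2 * N - r := by unfold um; rw [← hr]; omega
    have u2 : um N (M + 1) = 2 * N - r - 1 := by
      unfold um; rw [hnext]
      split_ifs with h5 <;> omega
    have c1 : ((2 * N - r : ℕ) : ℝ) = 2 * N - r := by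
      rw [Nat.cast_sub hrlt.le]; push_cast; ring
    have c2 : ((2 * N - r - 1 : ℕ) : ℝ) = 2 * N - r - 1 := by
      rw [Nat.cast_sub (by omega), Nat.cast_sub hrlt.le]; push_cast; ring
    rw [u1, u2, c1, c2, ← rho_reflect, rho_eq_self (by rw [hπ]; nlinarith)
      (by rw [hπ]; nlinarith)]
    rw [hπ]; ring

/-- the boundary values of the distance function of the `j`-th of `N` equally spaced points -/
theorem rho_val (j q : ℕ) {x : ℝ} (hx0 : 0 ≤ x) (hx1 : x ≤ 1) :
    rho (2 * π * j / N - (q + x) * (π / N)) =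
      π / N * (um N (q + (2 * N - 2) * j) +
        x * ((um N (q + 1 + (2 * N - 2) * j) : ℝ) - um N (q + (2 * N - 2) * j))) := by
  have hNr : (0 : ℝ) < N := by exact_mod_cast hN
  have h1 : ((2 * N - 2 : ℕ) : ℝ) = 2 * N - 2 := by
    rw [Nat.cast_sub (by omega)]
    push_cast
    ring
  have h2 := rho_grid' hN (q + (2 * N - 2) * j) hx0 hx1
  have e1 : q + (2 * N - 2) * j + 1 = q + 1 + (2 * N - 2) * j := by ring
  rw [e1] at h2
  rw [← h2]
  have e2 : (((q + (2 * N - 2) * j : ℕ) : ℝ) + x) * (π / N) =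
      -(2 * π * j / N - (q + x) * (π / N)) + (j : ℝ) * (2 * π) := by
    push_cast
    rw [h1]
    field_simp
    ring
  rw [e2, rho_nat, rho_neg]

theorem rho_val0 (j q : ℕ) :
    rho (2 * π * j / N - q * (π / N)) = π / N * um N (q + (2 * N - 2) * j) := by
  have h := rho_val hN j q (x := 0) le_rfl zero_le_one
  rw [add_zero, zero_mul, add_zero] at h
  exact h

theorem pwAff_rho (j : ℕ) : PwAff (π / N) (fun t => rho (2 * π * j / N - t)) := by
  have hNr : (0 : ℝ) < N := by exact_mod_cast hN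
  set δ : ℝ := π / N with hδ
  have hδ0 : 0 < δ := by positivity
  intro q
  refine ⟨(um N (q + 1 + (2 * N - 2) * j) : ℝ) - um N (q + (2 * N - 2) * j), ?_⟩
  intro s hs
  have hq := rho_val0 hN j q
  have hx0 : 0 ≤ s / δ - q := by
    have : (q : ℝ) ≤ s / δ := by rw [le_div_iff₀ hδ0]; exact hs.1
    linarith
  have hx1 : s / δ - q ≤ 1 := by
    have : s / δ ≤ ((q + 1 : ℕ) : ℝ) := by rw [div_le_iff₀ hδ0]; exact hs.2
    push_cast at this
    linarith
  have h1 := rho_val hN j q hx0 hx1
  have h2 : ((q : ℝ) + (s / δ - q)) * δ = s := by field_simp; ring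
  rw [← hδ, h2] at h1
  rw [← hδ] at hq
  simp only
  rw [h1, hq]
  field_simp

end

/-- sums over a period -/
theorem sum_shift {p : ℕ} (h : ℕ → ℝ) (hp : ∀ m, h (m + p) = h m) (s : ℕ) :
    ∑ q ∈ range p, h (q + s) = ∑ q ∈ range p, h q := by
  induction s with
  | zero => simp
  | succ s ih =>
    rw [← ih]
    have h1 := Finset.sum_range_succ (fun q => h (q + s)) p
    have h2 := Finset.sum_range_succ' (fun q => h (q + s)) p
    have h3 : h (p + s) = h (0 + s) := by
      rw [add_comm p s, hp, zero_add]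
    have h4 : ∑ q ∈ range p, h (q + 1 + s) = ∑ q ∈ range p, h (q + (s + 1)) :=
      Finset.sum_congr rfl (fun q _ => by rw [add_assoc, add_comm 1 s])
    rw [← h4]
    linarith

/-- the summand of the polygonal sum -/
noncomputable def hh (N m : ℕ) : ℝ :=
  (um N m : ℝ) * um N (m + (2 * N - 1)) - um N (m + 1) * um N (m + (2 * N - 2))

theorem hh_per {N : ℕ} (m : ℕ) : hh N (m + 2 * N) = hh N m := by
  unfold hh
  have e1 : m + 2 * N + (2 * N - 1) = m + (2 * N - 1) + 2 * N := by ring
  have e2 : m + 2 * N + 1 = m + 1 + 2 * N := by ring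
  have e3 : m + 2 * N + (2 * N - 2) = m + (2 * N - 2) + 2 * N := by ring
  rw [e1, e2, e3, um_per, um_per, um_per, um_per]

theorem sum_hh (M : ℕ) : ∑ q ∈ range (2 * (M + 2)), hh (M + 2) q = 8 * (M : ℝ) := by
  have hN : 0 < M + 2 := by omega
  have e : 2 * (M + 2) = 2 + M + 2 + M := by ring
  have lo : ∀ m, m ≤ M + 2 → (um (M + 2) m : ℝ) = m := fun m hm => by rw [um_lo hN hm]
  have hi : ∀ m, M + 2 ≤ m → m ≤ 2 * M + 4 → (um (M + 2) m : ℝ) = 2 * M + 4 - m := by
    intro m h1 h2
    rw [um_hi h1 (by omega) hN, Nat.cast_sub (by omega)]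
    push_cast
    ring
  have per : ∀ m, (um (M + 2) (m + (2 * M + 4)) : ℝ) = um (M + 2) m := by
    intro m
    have : m + (2 * M + 4) = m + 2 * (M + 2) := by ring
    rw [this, um_per]
  have c1 : 2 * (M + 2) - 1 = 2 * M + 3 := by omega
  have c2 : 2 * (M + 2) - 2 = 2 * M + 2 := by omega
  rw [e, Finset.sum_range_add, Finset.sum_range_add, Finset.sum_range_add]
  have s1 : ∑ q ∈ range 2, hh (M + 2) q = -4 := by
    rw [Finset.sum_range_succ, Finset.sum_range_one]
    unfold hh
    rw [c1, c2]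
    have a1 : 1 + (2 * M + 3) = 0 + (2 * M + 4) := by ring
    rw [lo 0 (by omega), lo (0 + 1) (by omega), hi (0 + (2 * M + 2)) (by omega) (by omega),
      a1, per, lo 0 (by omega), lo (1 + 1) (by omega), hi (1 + (2 * M + 2)) (by omega) (by omega)]
    push_cast
    ring
  have s2 : ∑ i ∈ range M, hh (M + 2) (2 + i) = 2 * M := by
    have : ∀ i ∈ range M, hh (M + 2) (2 + i) = 2 := by
      intro i hi'
      have hi2 := Finset.mem_range.1 hi'
      unfold hh
      rw [c1, c2]
      have a1 : 2 + i + (2 * M + 3) = (i + 1) + (2 * M + 4) := by ring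
      have a2 : 2 + i + (2 * M + 2) = i + (2 * M + 4) := by ring
      rw [a1, a2, per, per, lo (2 + i) (by omega), lo (i + 1) (by omega), lo (2 + i + 1) (by omega),
        lo i (by omega)]
      push_cast
      ring
    rw [Finset.sum_congr rfl this]
    simp [mul_comm]
  have s3 : ∑ i ∈ range 2, hh (M + 2) (2 + M + i) = 4 * (M + 1) := by
    rw [Finset.sum_range_succ, Finset.sum_range_one]
    unfold hh
    rw [c1, c2]
    have a1 : 2 + M + 0 + (2 * M + 3) = (M + 1) + (2 * M + 4) := by ring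
    have a2 : 2 + M + 0 + (2 * M + 2) = M + (2 * M + 4) := by ring
    have a3 : 2 + M + 1 + (2 * M + 3) = (M + 2) + (2 * M + 4) := by ring
    have a4 : 2 + M + 1 + (2 * M + 2) = (M + 1) + (2 * M + 4) := by ring
    rw [a1, a2, a3, a4, per, per, per, lo (2 + M + 0) (by omega), lo (M + 1) (by omega),
      hi (2 + M + 0 + 1) (by omega) (by omega), lo M (by omega), lo (M + 2) (by omega)]
    rcases Nat.eq_zero_or_pos M with h0 | h0
    · subst h0
      rw [hi (2 + 0 + 1 + 1) (by omega) (by omega)]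
      push_cast
      ring
    · rw [hi (2 + M + 1 + 1) (by omega) (by omega)]
      push_cast
      ring
  have s4 : ∑ i ∈ range M, hh (M + 2) (2 + M + 2 + i) = 2 * M := by
    have : ∀ i ∈ range M, hh (M + 2) (2 + M + 2 + i) = 2 := by
      intro i hi'
      have hi2 := Finset.mem_range.1 hi'
      unfold hh
      rw [c1, c2]
      have a1 : 2 + M + 2 + i + (2 * M + 3) = (M + 3 + i) + (2 * M + 4) := by ring
      have a2 : 2 + M + 2 + i + (2 * M + 2) = (M + 2 + i) + (2 * M + 4) := by ring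
      rw [a1, a2, per, per, hi (2 + M + 2 + i) (by omega) (by omega),
        hi (M + 3 + i) (by omega) (by omega), hi (2 + M + 2 + i + 1) (by omega) (by omega),
        hi (M + 2 + i) (by omega) (by omega)]
      push_cast
      ring
    rw [Finset.sum_congr rfl this]
    simp [mul_comm]
  rw [s1, s2, s3, s4]
  ring

/-- the polygonal sum of two neighbouring distance functions -/
theorem pp_rho {N : ℕ} (hN : 2 ≤ N) (j : ℕ) :
    pp (fun t => rho (2 * π * j / N - t)) (fun t => rho (2 * π * ((j + 1 : ℕ) : ℝ) / N - t))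
      (π / N) (2 * N) = (π / N) ^ 2 * (8 * N - 16) := by
  have hN0 : 0 < N := by omega
  unfold pp dd
  have h1 : ∀ q ∈ range (2 * N), rho (2 * π * j / N - (q : ℝ) * (π / N)) *
      rho (2 * π * ((j + 1 : ℕ) : ℝ) / N - ((q + 1 : ℕ) : ℝ) * (π / N)) -
      rho (2 * π * j / N - ((q + 1 : ℕ) : ℝ) * (π / N)) *
      rho (2 * π * ((j + 1 : ℕ) : ℝ) / N - (q : ℝ) * (π / N)) =
      (π / N) ^ 2 * hh N (q + (2 * N - 2) * j) := by
    intro q _
    rw [rho_val0 hN0, rho_val0 hN0, rho_val0 hN0, rho_val0 hN0]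
    unfold hh
    have e1 : q + 1 + (2 * N - 2) * (j + 1) = q + (2 * N - 2) * j + (2 * N - 1) := by
      have : 2 * N - 1 = 2 * N - 2 + 1 := by omega
      rw [this]
      ring
    have e2 : q + (2 * N - 2) * (j + 1) = q + (2 * N - 2) * j + (2 * N - 2) := by ring
    have e3 : q + 1 + (2 * N - 2) * j = q + (2 * N - 2) * j + 1 := by ring
    rw [e1, e2, e3]
    ring
  rw [Finset.sum_congr rfl h1, ← Finset.mul_sum, sum_shift (hh N) hh_per]
  obtain ⟨M, rfl⟩ : ∃ M, N = M + 2 := ⟨N - 2, by omega⟩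
  rw [sum_hh]
  push_cast
  ring

theorem rho_lip1 (c s t : ℝ) : |rho (c - s) - rho (c - t)| ≤ 1 * |s - t| := by
  refine (rho_sub_le _ _).trans ?_
  rw [one_mul, ← abs_neg]
  apply le_of_eq
  congr 1
  ring

/-- the loop sums of two neighbouring distance functions -/
theorem loop_lim {M : Type} [MetricSpace M] (S : OrientedSurface M) {N : ℕ} (hN : 2 ≤ N) (j : ℕ) :
    Tendsto (fun n : ℕ => loopSum S.brk (fun t => rho (2 * π * j / N - t))
      (fun t => rho (2 * π * ((j + 1 : ℕ) : ℝ) / N - t)) n) atTop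
      (𝓝 ((π / N) ^ 2 * (8 * N - 16))) := by
  have hN0 : 0 < N := by omega
  have hNr : (0 : ℝ) < N := by exact_mod_cast hN0
  have h := tendsto_loopSum S.brk S.brk_strictMono S.brk_zero (δ := π / N) (by positivity) (2 * N)
    (by rw [S.brk_last]; push_cast; field_simp) (pwAff_rho hN0 j) (pwAff_rho hN0 (j + 1))
    (Λ := 1) zero_le_one (fun s t => rho_lip1 _ s t) (fun s t => rho_lip1 _ s t)
  rw [pp_rho hN j] at h
  exact h

end Pool.Agent.R248.FA
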