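import Mathlib
import Pool.Agent.R248.FA.Flux
import Pool.Agent.R248.FA.Defs

/-!
# Fillings of the circle: integrals of Jacobians of Lipschitz functions are boundary integrals
-/

set_option autoImplicit false

open Finset Real MeasureTheory Filter Topology Set

namespace Pool.Agent.R248.FA

open Pool.Agent.H115R3.Filling Pool.Agent.W664.Fill

/-- The discretised integral converges to the integral of the Jacobian. -/
theorem square_lim (g : RiemMetric) {u w : ℝ × ℝ → ℝ} (hu : SegLip g u) (hw : SegLip g w) :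
    IntegrableOn (jac u w) Sq ∧ Tendsto (fun n : ℕ =>
      ∑ q ∈ (range n ×ˢ range n : Finset (ℕ × ℕ)), cellSum u w n q.1 q.2)
      atTop (𝓝 (∫ x in Sq, jac u w x)) := by
  obtain ⟨C, hC0, hC⟩ := g.exists_bound
  have hAl : ∀ p ∈ Sq, ∀ q ∈ Sq, |u q - u p| ≤ C * ‖q - p‖ :=
    fun p hp q hq => hu.lipschitz hC hp hq
  have hBl : ∀ p ∈ Sq, ∀ q ∈ Sq, |w q - w p| ≤ C * ‖q - p‖ :=
    fun p hp q hq => hw.lipschitz hC hp hq
  have hrestr : volume.restrict Sqh = volume.restrict Sqo :=
    Measure.restrict_congr_set Sqh_ae_eq_Sqo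
  have hSqhm : MeasurableSet Sqh := measurableSet_Ico.prod measurableSet_Ico
  have hlim : ∀ᵐ x ∂(volume.restrict Sqh),
      Tendsto (fun n => Qf u w n x) atTop (𝓝 (jac u w x)) := by
    rw [hrestr]
    filter_upwards [hu.ae_diff, hw.ae_diff,
      self_mem_ae_restrict isOpen_Sqo.measurableSet] with x hx1 hx2 hxS
    exact tendsto_Qf hxS hx1 hx2
  have hbound : ∀ n : ℕ, 0 < n → ∀ᵐ x ∂(volume.restrict Sqh),
      ‖Qf u w n x‖ ≤ C ^ 2 := by
    intro n hn
    filter_upwards [self_mem_ae_restrict hSqhm] with x hx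
    exact Qf_bound hC0 hAl hBl hn hx
  have hfin : IsFiniteMeasure (volume.restrict Sqh) := by
    rw [Measure.restrict_congr_set Sqh_ae_eq_Sq]
    exact ⟨by rw [Measure.restrict_apply_univ]; exact isCompact_Sq.measure_lt_top⟩
  have hconst : Integrable (fun _ : ℝ × ℝ => C ^ 2) (volume.restrict Sqh) :=
    integrable_const _
  have hint : Tendsto (fun n : ℕ => ∫ x in Sqh, Qf u w n x) atTop
      (𝓝 (∫ x in Sqh, jac u w x)) := by
    refine tendsto_integral_filter_of_dominated_convergence (fun _ => C ^ 2) ?_ ?_ hconst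
      hlim
    · exact Eventually.of_forall fun n => (measurable_Qf _ _ n).aestronglyMeasurable
    · filter_upwards [eventually_gt_atTop 0] with n hn using hbound n hn
  have hJmeas : AEStronglyMeasurable (jac u w) (volume.restrict Sqh) :=
    aestronglyMeasurable_of_tendsto_ae atTop
      (fun n => (measurable_Qf u w n).aestronglyMeasurable) hlim
  have hJint : Integrable (jac u w) (volume.restrict Sqh) := by
    refine hconst.mono' hJmeas ?_
    have hall : ∀ᵐ x ∂(volume.restrict Sqh), ∀ n : ℕ, 0 < n →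
        ‖Qf u w n x‖ ≤ C ^ 2 := by
      rw [ae_all_iff]
      intro n
      by_cases hn : 0 < n
      · filter_upwards [hbound n hn] with x hx _ using hx
      · exact Eventually.of_forall fun x h => absurd h hn
    filter_upwards [hlim, hall] with x hx hx2
    refine le_of_tendsto hx.norm ?_
    filter_upwards [eventually_gt_atTop 0] with n hn using hx2 n hn
  have hrq : volume.restrict Sqh = volume.restrict Sq := Measure.restrict_congr_set Sqh_ae_eq_Sq
  refine ⟨?_, ?_⟩
  · unfold IntegrableOn
    rwa [← hrq]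
  · rw [← hrq]
    refine hint.congr' ?_
    filter_upwards [eventually_gt_atTop 0] with n hn
    rw [integral_Qf _ _ hn]

section

variable {M : Type} [MetricSpace M] (S : OrientedSurface M)

theorem segLip {V : M → ℝ} (hV : ∀ x y, |V x - V y| ≤ dist x y) (k : Fin S.faces) :
    SegLip (S.metric k) (fun p => V (S.chart k p)) := by
  intro p hp q hq
  refine (hV _ _).trans ?_
  rw [dist_comm]
  exact S.dist_le k p hp q hq

/-- The integral of `dU ∧ dW` over the surface is the boundary integral. -/
theorem integral_jac {U W : M → ℝ} (hU : ∀ x y, |U x - U y| ≤ dist x y)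
    (hW : ∀ x y, |W x - W y| ≤ dist x y) {L : ℝ}
    (hL : Tendsto (fun n : ℕ => loopSum S.brk (fun t => U (S.boundary (t : AddCircle (2 * π))))
      (fun t => W (S.boundary (t : AddCircle (2 * π)))) n) atTop (𝓝 L)) :
    ∑ k, ∫ x in Sq, jac (fun p => U (S.chart k p)) (fun p => W (S.chart k p)) x = L / 2 := by
  have hsum : Tendsto (fun n : ℕ => ∑ k,
      ∑ q ∈ (Finset.range n ×ˢ Finset.range n : Finset (ℕ × ℕ)),
        cellSum (fun p => U (S.chart k p)) (fun p => W (S.chart k p)) n q.1 q.2)
      atTop (𝓝 (∑ k, ∫ x in Sq, jac (fun p => U (S.chart k p)) (fun p => W (S.chart k p)) x)) :=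
    tendsto_finsetSum _ (fun k _ => (square_lim (S.metric k) (segLip S hU k) (segLip S hW k)).2)
  refine tendsto_nhds_unique hsum ((hL.div_const 2).congr' ?_)
  filter_upwards [eventually_gt_atTop 0] with n hn
  have e1 : ∀ k, ∑ q ∈ (Finset.range n ×ˢ Finset.range n : Finset (ℕ × ℕ)),
      cellSum (fun p => U (S.chart k p)) (fun p => W (S.chart k p)) n q.1 q.2
      = (∑ s : Fin 4, edge (fun t => U (S.chart k (side s t)))
          (fun t => W (S.chart k (side s t))) n) / 2 :=
    fun k => cells_eq _ _ hn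
  simp_rw [e1]
  rw [← Finset.sum_div]
  congr 1
  have e2 := sum_sides S U W n
  rw [← Finset.univ_product_univ, Finset.sum_product] at e2
  simp only at e2
  rw [e2]

variable {S}

theorem Extends.bd {N : ℕ} {u : ℕ → M → ℝ} (h : Extends S N u) (j : ℕ) :
    (fun t : ℝ => u j (S.boundary (t : AddCircle (2 * π)))) =
      fun t => rho (2 * π * j / N - t) := by
  funext t
  rw [h.bdry, dist_eq_rho]

/-- **The identity.** -/
theorem Extends.identity {N : ℕ} (hN : 2 ≤ N) {u : ℕ → M → ℝ} (h : Extends S N u) :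
    ∑ k, ∫ x in Sq, ∑ j ∈ range N, jac (inChart S u k j) (inChart S u k (j + 1)) x =
      4 * π ^ 2 * (1 - 2 / N) := by
  show ∑ k, ∫ x in Sq, ∑ j ∈ range N,
      jac (fun p => u j (S.chart k p)) (fun p => u (j + 1) (S.chart k p)) x =
      4 * π ^ 2 * (1 - 2 / N)
  have hNr : (0 : ℝ) < N := by
    have : 0 < N := by omega
    exact_mod_cast this
  have h1 : ∀ k : Fin S.faces, ∫ x in Sq, ∑ j ∈ range N,
      jac (fun p => u j (S.chart k p)) (fun p => u (j + 1) (S.chart k p)) x =
      ∑ j ∈ range N, ∫ x in Sq,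
        jac (fun p => u j (S.chart k p)) (fun p => u (j + 1) (S.chart k p)) x := by
    intro k
    exact integral_finsetSum _ (fun j _ =>
      (square_lim (S.metric k) (segLip S (h.lip j) k) (segLip S (h.lip (j + 1)) k)).1)
  rw [Finset.sum_congr rfl (fun k _ => h1 k), Finset.sum_comm]
  have h2 : ∀ j ∈ range N, ∑ k, ∫ x in Sq,
      jac (fun p => u j (S.chart k p)) (fun p => u (j + 1) (S.chart k p)) x =
      (π / N) ^ 2 * (8 * N - 16) / 2 := by
    intro j _
    apply integral_jac S (h.lip j) (h.lip (j + 1))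
    rw [h.bd j, h.bd (j + 1)]
    exact loop_lim S hN j
  rw [Finset.sum_congr rfl h2, Finset.sum_const, Finset.card_range, nsmul_eq_mul]
  field_simp
  ring

end

end Pool.Agent.R248.FA
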