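import Mathlib
import Pool.Agent.R248.FA.Ident

/-!
# Calibrations with a density
-/

set_option autoImplicit false

open Finset Real MeasureTheory Filter Topology Set

namespace Pool.Agent.R248.FA

open Pool.Agent.H115R3.Filling Pool.Agent.W664.Fill

section

variable {M : Type} [MetricSpace M] (S : OrientedSurface M)

/-- the boundary sums converge to the integral of the Jacobian -/
theorem loop_tendsto {U W : M → ℝ} (hU : ∀ x y, |U x - U y| ≤ dist x y)
    (hW : ∀ x y, |W x - W y| ≤ dist x y) :
    Tendsto (fun n : ℕ => loopSum S.brk (fun t => U (S.boundary (t : AddCircle (2 * π))))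
      (fun t => W (S.boundary (t : AddCircle (2 * π)))) n / 2) atTop
      (𝓝 (∑ k, ∫ x in Sq, jac (fun p => U (S.chart k p)) (fun p => W (S.chart k p)) x)) := by
  have hsum : Tendsto (fun n : ℕ => ∑ k,
      ∑ q ∈ (Finset.range n ×ˢ Finset.range n : Finset (ℕ × ℕ)),
        cellSum (fun p => U (S.chart k p)) (fun p => W (S.chart k p)) n q.1 q.2)
      atTop (𝓝 (∑ k, ∫ x in Sq, jac (fun p => U (S.chart k p)) (fun p => W (S.chart k p)) x)) :=
    tendsto_finsetSum _ (fun k _ => (square_lim (S.metric k) (segLip S hU k) (segLip S hW k)).2)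
  refine hsum.congr' ?_
  filter_upwards [eventually_gt_atTop 0] with n hn
  have e1 : ∀ k, ∑ q ∈ (Finset.range n ×ˢ Finset.range n : Finset (ℕ × ℕ)),
      cellSum (fun p => U (S.chart k p)) (fun p => W (S.chart k p)) n q.1 q.2
      = (∑ s : Fin 4, edge (fun t => U (S.chart k (side s t)))
          (fun t => W (S.chart k (side s t))) n) / 2 :=
    fun k => cells_eq _ _ hn
  simp_rw [e1]
  rw [← Finset.sum_div]
  congr 1
  have e2 := sum_sides S U W n
  rw [← Finset.univ_product_univ, Finset.sum_product] at e2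
  simp only at e2
  rw [e2]

/-- A calibration with the densities `D k` gives a lower bound for the integral of the
densities. -/
theorem ge_of_cal {ι : Type} (P : Finset ι) (c : ι → ℝ) (U W : ι → M → ℝ)
    (hU : ∀ i x y, |U i x - U i y| ≤ dist x y) (hW : ∀ i x y, |W i x - W i y| ≤ dist x y)
    (D : Fin S.faces → ℝ × ℝ → ℝ) (hD : ∀ k, IntegrableOn (D k) Sq)
    (hpt : ∀ k, ∀ᵐ x ∂(volume.restrict Sqo),
      ∑ i ∈ P, c i * jac (fun p => U i (S.chart k p)) (fun p => W i (S.chart k p)) x ≤ D k x)
    (L : ℝ) (hL : Tendsto (fun n : ℕ => ∑ i ∈ P, c i * (loopSum S.brk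
      (fun t => U i (S.boundary (t : AddCircle (2 * π))))
      (fun t => W i (S.boundary (t : AddCircle (2 * π)))) n / 2)) atTop (𝓝 L)) :
    L ≤ ∑ k, ∫ x in Sq, D k x := by
  have h1 : Tendsto (fun n : ℕ => ∑ i ∈ P, c i * (loopSum S.brk
      (fun t => U i (S.boundary (t : AddCircle (2 * π))))
      (fun t => W i (S.boundary (t : AddCircle (2 * π)))) n / 2)) atTop
      (𝓝 (∑ i ∈ P, c i * ∑ k, ∫ x in Sq,
        jac (fun p => U i (S.chart k p)) (fun p => W i (S.chart k p)) x)) :=
    tendsto_finsetSum _ (fun i _ => (loop_tendsto S (hU i) (hW i)).const_mul (c i))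
  rw [tendsto_nhds_unique hL h1]
  have hi : ∀ i k, IntegrableOn
      (jac (fun p => U i (S.chart k p)) (fun p => W i (S.chart k p))) Sq := fun i k =>
    (square_lim (S.metric k) (segLip S (hU i) k) (segLip S (hW i) k)).1
  have h2 : ∑ i ∈ P, c i * ∑ k, ∫ x in Sq,
        jac (fun p => U i (S.chart k p)) (fun p => W i (S.chart k p)) x =
      ∑ k, ∫ x in Sq, ∑ i ∈ P, c i *
        jac (fun p => U i (S.chart k p)) (fun p => W i (S.chart k p)) x := by
    have h3 : ∀ k, ∫ x in Sq, ∑ i ∈ P, c i *
        jac (fun p => U i (S.chart k p)) (fun p => W i (S.chart k p)) x =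
        ∑ i ∈ P, c i * ∫ x in Sq,
          jac (fun p => U i (S.chart k p)) (fun p => W i (S.chart k p)) x := by
      intro k
      rw [integral_finsetSum P (fun i _ => (hi i k).const_mul (c i))]
      apply Finset.sum_congr rfl
      intro i _
      rw [integral_const_mul]
    rw [Finset.sum_congr rfl (fun k _ => h3 k), Finset.sum_comm]
    apply Finset.sum_congr rfl
    intro i _
    rw [Finset.mul_sum]
  rw [h2]
  apply Finset.sum_le_sum
  intro k _
  apply integral_mono_ae
  · exact integrable_finsetSum P (fun i _ => (hi i k).const_mul (c i))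
  · exact hD k
  · have hr : volume.restrict Sqo = (volume.restrict Sq : Measure (ℝ × ℝ)) := by
      rw [← Measure.restrict_congr_set Sqh_ae_eq_Sqo, Measure.restrict_congr_set Sqh_ae_eq_Sq]
    rw [EventuallyLE, ← hr]
    exact hpt k

/-! ### The localised functions -/

/-- the distance to the boundary -/
noncomputable def bdist (x : M) : ℝ := Metric.infDist x (Set.range S.boundary)

/-- clamp to `[-c, c]` -/
noncomputable def cmp (c y : ℝ) : ℝ := max (-c) (min c y)

theorem cmp_lip (c c' y y' : ℝ) : |cmp c y - cmp c' y'| ≤ max |c - c'| |y - y'| := by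
  unfold cmp
  refine (abs_max_sub_max_le_max _ _ _ _).trans ?_
  apply max_le
  · rw [neg_sub_neg, abs_sub_comm]
    exact le_max_left _ _
  · exact abs_min_sub_min_le_max _ _ _ _

theorem cmp_neg {c : ℝ} (hc : 0 ≤ c) (y : ℝ) : cmp c (-y) = -cmp c y := by
  unfold cmp
  rcases le_total y c with h1 | h1 <;> rcases le_total (-c) y with h2 | h2
  · rw [min_eq_right (by linarith : -y ≤ c), max_eq_right (by linarith : -c ≤ -y),
      min_eq_right h1, max_eq_right h2]
  · rw [min_eq_left (by linarith : c ≤ -y), max_eq_right (by linarith : -c ≤ c),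
      min_eq_right h1, max_eq_left h2, neg_neg]
  · rw [min_eq_right (by linarith : -y ≤ c), max_eq_left (by linarith : -y ≤ -c),
      min_eq_left h1, max_eq_right (by linarith : -c ≤ c)]
  · have : c = 0 := by linarith
    have h3 : y = 0 := by linarith
    simp [this, h3]

theorem cmp_zero (y : ℝ) : cmp 0 y = 0 := by
  unfold cmp
  rw [neg_zero]
  exact max_eq_left (min_le_left _ _)

theorem cmp_self {c y : ℝ} (h1 : -c ≤ y) (h2 : y ≤ c) : cmp c y = y := by
  unfold cmp
  rw [min_eq_right h2, max_eq_right h1]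

theorem cmp_le {c : ℝ} (hc : 0 ≤ c) (y : ℝ) : |cmp c y| ≤ c := by
  unfold cmp
  rw [abs_le]
  exact ⟨le_max_left _ _, max_le (by linarith) (min_le_left _ _)⟩

/-- the width of the remaining interval -/
noncomputable def wid (x : M) : ℝ := max (π / 2 - bdist S x) 0

/-- the localised function: `π / 2` at distance at least `π / 2` from the boundary -/
noncomputable def loc (f : M → ℝ) (x : M) : ℝ := π / 2 + cmp (wid S x) (f x - π / 2)

theorem wid_nonneg (x : M) : 0 ≤ wid S x := le_max_right _ _

theorem wid_le (x : M) : wid S x ≤ π / 2 := by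
  have hpi := Real.pi_pos
  have : 0 ≤ bdist S x := Metric.infDist_nonneg
  exact max_le (by linarith) (by positivity)

theorem wid_lip (x y : M) : |wid S x - wid S y| ≤ dist x y := by
  unfold wid
  refine (abs_max_sub_max_le_max _ _ _ _).trans ?_
  apply max_le
  · have h1 : bdist S x ≤ bdist S y + dist x y := Metric.infDist_le_infDist_add_dist
    have h2 : bdist S y ≤ bdist S x + dist y x := Metric.infDist_le_infDist_add_dist
    rw [dist_comm y x] at h2
    rw [abs_le]
    constructor <;> linarith
  · rw [sub_zero, abs_zero]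
    exact dist_nonneg

theorem loc_lip {f : M → ℝ} (hf : ∀ x y, |f x - f y| ≤ dist x y) (x y : M) :
    |loc S f x - loc S f y| ≤ dist x y := by
  unfold loc
  rw [add_sub_add_left_eq_sub]
  refine (cmp_lip _ _ _ _).trans ?_
  apply max_le (wid_lip S x y)
  rw [sub_sub_sub_cancel_right]
  exact hf x y

theorem loc_range (f : M → ℝ) (x : M) : 0 ≤ loc S f x ∧ loc S f x ≤ π := by
  have h1 := abs_le.1 ((cmp_le (wid_nonneg S x) (f x - π / 2)).trans (wid_le S x))
  unfold loc
  constructor <;> linarith

theorem loc_anti (f : M → ℝ) (x : M) : loc S (fun y => π - f y) x = π - loc S f x := by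
  unfold loc
  have : π - f x - π / 2 = -(f x - π / 2) := by ring
  rw [this, cmp_neg (wid_nonneg S x)]
  ring

theorem loc_adj (f f' : M → ℝ) (x : M) : |loc S f x - loc S f' x| ≤ |f x - f' x| := by
  unfold loc
  rw [add_sub_add_left_eq_sub]
  refine (cmp_lip _ _ _ _).trans ?_
  rw [sub_self, abs_zero, sub_sub_sub_cancel_right]
  exact max_le (abs_nonneg _) le_rfl

theorem loc_bdry {f : M → ℝ} (hf : ∀ x, 0 ≤ f x ∧ f x ≤ π) (t : AddCircle (2 * π)) :
    loc S f (S.boundary t) = f (S.boundary t) := by
  have hpi := Real.pi_pos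
  have h0 : bdist S (S.boundary t) = 0 := Metric.infDist_zero_of_mem ⟨t, rfl⟩
  have h1 : wid S (S.boundary t) = π / 2 := by
    unfold wid
    rw [h0, sub_zero, max_eq_left (by positivity)]
  obtain ⟨h2, h3⟩ := hf (S.boundary t)
  unfold loc
  rw [h1, cmp_self (by linarith) (by linarith)]
  ring

theorem loc_off {f : M → ℝ} {x : M} (hx : π / 2 ≤ bdist S x) : loc S f x = π / 2 := by
  unfold loc wid
  rw [max_eq_right (by linarith), cmp_zero, add_zero]

/-- the distance to the boundary is continuous in the charts -/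
theorem bcont (k : Fin S.faces) {x : ℝ × ℝ} (hx : x ∈ Sqo) :
    ContinuousAt (fun p => bdist S (S.chart k p)) x := by
  have hl : SegLip (S.metric k) (fun p => bdist S (S.chart k p)) := by
    apply segLip S
    intro a b
    have h1 : bdist S a ≤ bdist S b + dist a b := Metric.infDist_le_infDist_add_dist
    have h2 : bdist S b ≤ bdist S a + dist b a := Metric.infDist_le_infDist_add_dist
    rw [dist_comm b a] at h2
    rw [abs_le]
    constructor <;> linarith
  obtain ⟨C, hC0, hC⟩ := (S.metric k).exists_bound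
  rw [Metric.continuousAt_iff]
  intro ε hε
  have hev : ∀ᶠ p in 𝓝 x, p ∈ Sqo := isOpen_Sqo.mem_nhds hx
  obtain ⟨δ, hδ, hδ'⟩ := Metric.mem_nhds_iff.1 hev
  refine ⟨min δ (ε / (C + 1)), lt_min hδ (by positivity), fun {p} hp => ?_⟩
  have hp1 : p ∈ Sqo := hδ' (lt_of_lt_of_le hp (min_le_left _ _))
  have h3 := hl.lipschitz hC (Sqo_sub hx) (Sqo_sub hp1)
  rw [Real.dist_eq]
  refine h3.trans_lt ?_
  rw [dist_eq_norm] at hp
  have h4 : ‖p - x‖ < ε / (C + 1) := lt_of_lt_of_le hp (min_le_right _ _)
  rw [lt_div_iff₀ (by positivity)] at h4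
  nlinarith [norm_nonneg (p - x)]

/-- off the collar the differential of a localised function vanishes -/
theorem loc_deriv (f : M → ℝ) (k : Fin S.faces) {x : ℝ × ℝ} (hx : x ∈ Sqo)
    (hb : π / 2 < bdist S (S.chart k x)) :
    fderiv ℝ (fun p => loc S f (S.chart k p)) x = 0 := by
  have hc := bcont S k hx
  have hev : ∀ᶠ p in 𝓝 x, loc S f (S.chart k p) = π / 2 := by
    filter_upwards [hc.eventually (lt_mem_nhds hb)] with p hp
    exact loc_off S hp.le
  have : (fun p => loc S f (S.chart k p)) =ᶠ[𝓝 x] fun _ => π / 2 := hev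
  rw [this.fderiv_eq]
  simp

end

end Pool.Agent.R248.FA
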