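import Mathlib
import Pool.Agent.R248.FA.CalD
import Pool.Agent.TH502.FA.N14.Area

/-!
# The lattice calibration, localised to the collar of width `π / 2`
-/

set_option autoImplicit false

open Finset Real MeasureTheory Filter Topology Set

namespace Pool.Agent.R248.FA

open Pool.Agent.W664.Fill Pool.Agent.H115R3.Filling Pool.Agent.TH502.FA

section

variable {M : Type} [MetricSpace M] (S : OrientedSurface M)

/-- the part of the `k`-th square at distance at most `π / 2` from the boundary -/
def collar (k : Fin S.faces) : Set (ℝ × ℝ) := {p | bdist S (S.chart k p) ≤ π / 2}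

theorem collar_meas (k : Fin S.faces) : MeasurableSet (Sq ∩ collar S k) := by
  have hl : SegLip (S.metric k) (fun p => bdist S (S.chart k p)) := by
    apply segLip S
    intro a b
    have h1 : bdist S a ≤ bdist S b + dist a b := Metric.infDist_le_infDist_add_dist
    have h2 : bdist S b ≤ bdist S a + dist b a := Metric.infDist_le_infDist_add_dist
    rw [dist_comm b a] at h2
    rw [abs_le]
    constructor <;> linarith
  obtain ⟨C, hC0, hC⟩ := (S.metric k).exists_bound
  have hc : ContinuousOn (fun p => bdist S (S.chart k p)) Sq := by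
    rw [Metric.continuousOn_iff]
    intro x hx ε hε
    refine ⟨ε / (C + 1), by positivity, fun p hp hpx => ?_⟩
    have h3 := hl.lipschitz hC hx hp
    rw [Real.dist_eq]
    refine h3.trans_lt ?_
    rw [dist_eq_norm] at hpx
    have h4 : ‖p - x‖ * (C + 1) < ε := by rwa [lt_div_iff₀ (by positivity)] at hpx
    nlinarith [norm_nonneg (p - x)]
  exact (hc.preimage_isClosed_of_isClosed isCompact_Sq.isClosed isClosed_Iic).measurableSet

theorem collar_int (k : Fin S.faces) :
    IntegrableOn ((Sq ∩ collar S k).indicator (dens (S.metric k))) Sq :=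
  IntegrableOn.indicator (S.metric k).integrableOn_density (collar_meas S k)

/-- the localised functions -/
noncomputable def Lc (N i : ℕ) : M → ℝ := loc S (GG S.boundary N i)

theorem Lc_lip (N i : ℕ) (x y : M) : |Lc S N i x - Lc S N i y| ≤ dist x y :=
  loc_lip S (GG_lip _ _ _) x y

theorem Lc_range (N i : ℕ) (x : M) : 0 ≤ Lc S N i x ∧ Lc S N i x ≤ π := loc_range S _ x

theorem Lc_anti {N : ℕ} (hN : 0 < N) (i : ℕ) (x : M) : Lc S N (i + N) x = π - Lc S N i x := by
  unfold Lc
  rw [← loc_anti]
  congr 1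
  funext y
  exact GG_anti _ hN _ _

theorem Lc_adj (N i : ℕ) (x : M) : |Lc S N (i + 1) x - Lc S N i x| ≤ π / N :=
  (loc_adj S _ _ x).trans (GG_adj _ _ _ _)

/-- The point `i π / N` of the circle. -/
noncomputable def pt (N i : ℕ) : AddCircle (2 * π) := (((i : ℝ) * (π / N) : ℝ) : AddCircle (2 * π))

/-- The distance functions on the circle of the points `i π / N`, `i < N`, are `1`-Lipschitz with
respect to the distance of the surface. -/
def LipPoints (N : ℕ) : Prop := ∀ i < N, ∀ s t : AddCircle (2 * π),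
  |dist (pt N i) s - dist (pt N i) t| ≤ dist (S.boundary s) (S.boundary t)

variable {S} in
theorem lipPoints_of_noShortcut (hS : S.NoShortcut) (N : ℕ) : LipPoints S N := by
  intro i _ s t
  have h1 := abs_dist_sub_le s t (pt N i)
  rw [dist_comm s, dist_comm t] at h1
  exact h1.trans (hS s t)

theorem rho_anti (x t : ℝ) : rho (x + π - t) = π - rho (x - t) := by
  have : x + π - t = (x - t) + π := by ring
  rw [this, rho_add_pi]

variable {S} in
/-- no shortcuts between antipodal points suffices -/
theorem lipPoints_of_pairs {N : ℕ}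
    (hlen : ∀ s t, dist (S.boundary s) (S.boundary t) ≤ dist s t)
    (hp : ∀ i < N, π ≤ dist (S.boundary (pt N i)) (S.boundary (pt N i + (π : ℝ)))) :
    LipPoints S N := by
  have key : ∀ i < N, ∀ t, dist (S.boundary (pt N i)) (S.boundary t) = dist (pt N i) t := by
    intro i hi t
    apply le_antisymm (hlen _ _)
    obtain ⟨t, rfl⟩ := QuotientAddGroup.mk_surjective t
    have h1 := hp i hi
    have h2 := dist_triangle (S.boundary (pt N i)) (S.boundary (t : AddCircle (2 * π)))
      (S.boundary (pt N i + (π : ℝ)))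
    have h3 := hlen (t : AddCircle (2 * π)) (pt N i + (π : ℝ))
    have h4 : dist (pt N i) (t : AddCircle (2 * π)) = rho ((i : ℝ) * (π / N) - t) := by
      unfold pt
      rw [dist_eq_rho]
    have h5 : dist (t : AddCircle (2 * π)) (pt N i + (π : ℝ)) =
        π - rho ((i : ℝ) * (π / N) - t) := by
      rw [dist_comm]
      unfold pt
      rw [← AddCircle.coe_add, dist_eq_rho, rho_anti]
    show dist (pt N i) (t : AddCircle (2 * π)) ≤ _
    rw [h5] at h3
    rw [h4]
    linarith
  intro i hi s t
  rw [← key i hi s, ← key i hi t, dist_comm (S.boundary (pt N i)), dist_comm (S.boundary (pt N i))]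
  exact abs_dist_sub_le _ _ _

theorem ext_bd {β : AddCircle (2 * π) → M} {θ : AddCircle (2 * π)}
    (hθ : ∀ s t, |dist θ s - dist θ t| ≤ dist (β s) (β t)) (s : AddCircle (2 * π)) :
    H115R3.Filling.ext β θ (β s) = dist θ s := by
  unfold H115R3.Filling.ext
  apply le_antisymm
  · refine (ciInf_le (ext_bdd β θ (β s)) s).trans ?_
    simp
  · apply le_ciInf
    intro t
    have h1 := le_abs_self (dist θ s - dist θ t)
    have h2 := hθ s t
    rw [dist_comm (β s)] at h2
    linarith

theorem GG_bdry' {N : ℕ} (h : LipPoints S N) {i : ℕ} (hi : i < N) (t : ℝ) :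
    GG S.boundary N i (S.boundary (t : AddCircle (2 * π))) = rho ((i : ℝ) * (π / N) - t) := by
  have h1 : ∀ s t : AddCircle (2 * π),
      |dist ((((i : ℝ) * (π / N) + π : ℝ)) : AddCircle (2 * π)) s -
        dist ((((i : ℝ) * (π / N) + π : ℝ)) : AddCircle (2 * π)) t| ≤
      dist (S.boundary s) (S.boundary t) := by
    intro s t
    have h2 := h i hi s t
    obtain ⟨s, rfl⟩ := QuotientAddGroup.mk_surjective s
    obtain ⟨t, rfl⟩ := QuotientAddGroup.mk_surjective t
    change |dist ((((i : ℝ) * (π / N) + π : ℝ)) : AddCircle (2 * π)) (s : AddCircle (2 * π)) -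
        dist ((((i : ℝ) * (π / N) + π : ℝ)) : AddCircle (2 * π)) (t : AddCircle (2 * π))| ≤
      dist (S.boundary (s : AddCircle (2 * π))) (S.boundary (t : AddCircle (2 * π)))
    change |dist (pt N i) (s : AddCircle (2 * π)) - dist (pt N i) (t : AddCircle (2 * π))| ≤
      dist (S.boundary (s : AddCircle (2 * π))) (S.boundary (t : AddCircle (2 * π))) at h2
    unfold pt at h2
    rw [dist_eq_rho, dist_eq_rho] at h2
    rw [dist_eq_rho, dist_eq_rho, rho_anti, rho_anti]
    have e : π - rho ((i : ℝ) * (π / N) - s) - (π - rho ((i : ℝ) * (π / N) - t)) =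
        -(rho ((i : ℝ) * (π / N) - s) - rho ((i : ℝ) * (π / N) - t)) := by ring
    rw [e, abs_neg]
    exact h2
  have h0 : H115R3.Filling.ext S.boundary (((i : ℝ) * (π / N) : ℝ) : AddCircle (2 * π))
      (S.boundary (t : AddCircle (2 * π))) = rho ((i : ℝ) * (π / N) - t) := by
    rw [ext_bd (θ := (((i : ℝ) * (π / N) : ℝ) : AddCircle (2 * π))) (h i hi), dist_eq_rho]
  unfold GG
  rw [h0, ext_bd h1, dist_eq_rho, rho_anti]
  ring

theorem Lc_bdry {N : ℕ} (hN : 0 < N) (h : LipPoints S N) (i : ℕ) (t : ℝ) :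
    Lc S N i (S.boundary (t : AddCircle (2 * π))) = rho ((i : ℝ) * (π / N) - t) := by
  induction i using Nat.strong_induction_on with
  | _ i ih =>
    rcases Nat.lt_or_ge i N with hi | hi
    · unfold Lc
      rw [loc_bdry S (fun x => GG_range _ _ _ x)]
      exact GG_bdry' S h hi t
    · obtain ⟨j, rfl⟩ : ∃ j, i = j + N := ⟨i - N, by omega⟩
      have hNr : (N : ℝ) ≠ 0 := by
        have : N ≠ 0 := by omega
        exact_mod_cast this
      rw [Lc_anti S hN, ih j (by omega), ← rho_anti]
      congr 1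
      push_cast
      field_simp

/-- The bound for the area of the collar from the finite inequality. -/
theorem collar_ge_lattice (P : Par) (N n : ℕ) (hNn : N = 2 * n) (hn : 1 ≤ n)
    (s2 : ℕ) (hs2 : 0 < s2) (hS : LipPoints S N)
    (hfb : ∀ (a : ℕ → ℕ), (∀ i, a (i + N) + a i = N) →
      (∀ i, a i ≤ a (i + 1) + 1 ∧ a (i + 1) ≤ a i + 1) → ∀ (X Y : ℕ → ℝ),
      (∀ i, X (i + N) = -X i) → (∀ i, Y (i + N) = -Y i) → ∀ (B : ℝ),
      (∀ i, X i ^ 2 + Y i ^ 2 ≤ B) → 2 * Fsum P a X Y N ≤ B * s2) :
    (π / (2 * N)) ^ 2 / s2 * ∑ i ∈ range N, ∑ j ∈ range i, ∑ k ∈ range (N + 1),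
      ∑ l ∈ range (N + 1), cv P (i - j) k l *
        (∑ q ∈ range (4 * N), ((cl l (uu N j q) * cl k (uu N i (q + 1)) : ℕ) : ℝ)
        - ∑ q ∈ range (4 * N), ((cl l (uu N j (q + 1)) * cl k (uu N i q) : ℕ) : ℝ))
      ≤ ∑ k, ∫ x in Sq, (Sq ∩ collar S k).indicator (dens (S.metric k)) x := by
  have hN : 0 < N := by omega
  have hNr : (0 : ℝ) < N := by exact_mod_cast hN
  have hs2r : (0 : ℝ) < s2 := by exact_mod_cast hs2
  set h : ℝ := π / N with hh
  have hh0 : 0 < h := by positivity
  have hπh : π = 2 * n * h := by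
    rw [hh, hNn]; push_cast
    have : (n : ℝ) ≠ 0 := by
      have : n ≠ 0 := by omega
      exact_mod_cast this
    field_simp
  set G : ℕ → M → ℝ := Lc S N with hG
  set UU : ℕ → ℕ → M → ℝ := fun i k x => clp h k (G i x) with hUU
  have hUUl : ∀ i k x y, |UU i k x - UU i k y| ≤ dist x y := fun i k x y =>
    (clp_lip h k _ _).trans (Lc_lip S N i x y)
  refine ge_of_cal S (PI N)
    (fun p => if p.2.1 < p.1 then 2 * cv P (p.1 - p.2.1) p.2.2.1 p.2.2.2 / s2 else 0)
    (fun p => UU p.2.1 p.2.2.2) (fun p => UU p.1 p.2.2.1)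
    (fun p => hUUl _ _) (fun p => hUUl _ _)
    (fun k => (Sq ∩ collar S k).indicator (dens (S.metric k))) (collar_int S) ?_ _ ?_
  · intro c
    have hseg : ∀ (V : M → ℝ), (∀ x y, |V x - V y| ≤ dist x y) →
        SegLip (S.metric c) (fun p => V (S.chart c p)) := by
      intro V hV p hp q hq
      refine (hV _ _).trans ?_
      rw [dist_comm]
      exact S.dist_le c p hp q hq
    have hd1 : ∀ᵐ x ∂(volume.restrict Sqo), ∀ i : ℕ,
        DifferentiableAt ℝ (fun p => G i (S.chart c p)) x := by
      rw [ae_all_iff]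
      intro i
      exact (hseg _ (Lc_lip S N _)).ae_diff
    have hd2 : ∀ᵐ x ∂(volume.restrict Sqo), ∀ i k : ℕ,
        DifferentiableAt ℝ (fun p => UU i k (S.chart c p)) x := by
      rw [ae_all_iff]
      intro i
      rw [ae_all_iff]
      intro k
      exact (hseg _ (hUUl i k)).ae_diff
    filter_upwards [hd1, hd2, self_mem_ae_restrict isOpen_Sqo.measurableSet] with x hx1 hx2 hxo
    have hxS : x ∈ Sq := Sqo_sub hxo
    by_cases hcol : x ∈ collar S c
    swap
    · have hoff : π / 2 < bdist S (S.chart c x) := not_le.1 hcol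
      have hz : ∀ i, fderiv ℝ (fun p => G i (S.chart c p)) x = 0 := fun i =>
        loc_deriv S _ c hxo hoff
      have hzU : ∀ i k, k ≤ 2 * n → fderiv ℝ (fun p => UU i k (S.chart c p)) x = 0 := by
        intro i k hk
        have e1 := fderiv_clp hh0 n (fun p => G i (S.chart c p)) x (Lc_range S N _ _).1
          (by rw [← hπh]; exact (Lc_range S N _ _).2) (hx1 i)
          (fun k _ => hx2 i k) k hk
        have e1' : fderiv ℝ (fun p => UU i k (S.chart c p)) x
            = if k = rnd n (G i (S.chart c x) / h) then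
              fderiv ℝ (fun p => G i (S.chart c p)) x else 0 := e1
        rw [e1', hz]
        simp
      rw [Set.indicator_of_notMem (fun hm => hcol hm.2)]
      apply le_of_eq
      apply Finset.sum_eq_zero
      intro p hp
      unfold PI at hp
      simp only [Finset.mem_product, Finset.mem_range] at hp
      unfold jac
      rw [hzU p.2.1 p.2.2.2 (by omega)]
      simp
    rw [Set.indicator_of_mem (show x ∈ Sq ∩ collar S c from ⟨hxS, hcol⟩)]
    show _ ≤ √((S.metric c).E x * (S.metric c).G x - (S.metric c).F x ^ 2)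
    set E := (S.metric c).E x with hE
    set F := (S.metric c).F x with hF
    set Gm := (S.metric c).G x with hGm
    have hEpos : 0 < E := (S.metric c).pos_E x hxS
    have hDet : 0 < E * Gm - F ^ 2 := (S.metric c).pos_det x hxS
    set Dt := √(E * Gm - F ^ 2) with hDt
    have hDtpos : 0 < Dt := Real.sqrt_pos.mpr hDet
    set f : ℕ → ℝ × ℝ → ℝ := fun i p => G i (S.chart c p) with hf
    set a : ℕ → ℕ := fun i => rnd n (f i x / h) with ha
    set A1 : ℕ → ℝ := fun i => fderiv ℝ (f i) x (1, 0) with hA1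
    set A2 : ℕ → ℝ := fun i => fderiv ℝ (f i) x (0, 1) with hA2
    have hf0 : ∀ i, 0 ≤ f i x := fun i => (Lc_range S N _ _).1
    have hf1 : ∀ i, f i x ≤ 2 * n * h := fun i => by
      rw [← hπh]; exact (Lc_range S N _ _).2
    have hfN : ∀ i, f (i + N) = fun p => π - f i p := by
      intro i
      funext p
      exact Lc_anti S hN _ _
    -- periodicity of the rounding
    have haper : ∀ i, a (i + N) + a i = N := by
      intro i
      simp only [ha]
      have e1 : f (i + N) x / h = 2 * n - f i x / h := by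
        rw [hfN]
        simp only
        rw [sub_div, hπh]
        field_simp
      rw [e1, rnd_compl n (div_nonneg (hf0 i) hh0.le) (by
        rw [div_le_iff₀ hh0]; exact hf1 i), hNn]
    have haadj : ∀ i, a i ≤ a (i + 1) + 1 ∧ a (i + 1) ≤ a i + 1 := by
      intro i
      have e0 : |f (i + 1) x - f i x| ≤ h := Lc_adj S N _ _
      have e1 : |f (i + 1) x / h - f i x / h| ≤ 1 := by
        rw [← sub_div, abs_div, abs_of_pos hh0, div_le_one hh0]
        exact e0
      have e2 : |f i x / h - f (i + 1) x / h| ≤ 1 := by rw [abs_sub_comm]; exact e1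
      exact ⟨rnd_adj n e2 (div_nonneg (hf0 _) hh0.le), rnd_adj n e1 (div_nonneg (hf0 _) hh0.le)⟩
    -- the covectors
    have hXper : ∀ i, Dt * A1 (i + N) = -(Dt * A1 i) := by
      intro i
      simp only [hA1]
      rw [hfN, fderiv_const_sub]
      simp
    have hYper : ∀ i, F * A1 (i + N) - E * A2 (i + N) = -(F * A1 i - E * A2 i) := by
      intro i
      simp only [hA1, hA2]
      rw [hfN, fderiv_const_sub]
      simp only [_root_.neg_apply]
      ring
    have hnorm : ∀ i, (Dt * A1 i) ^ 2 + (F * A1 i - E * A2 i) ^ 2 ≤ E * Dt ^ 2 := by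
      intro i
      apply dual_bound hEpos hDet
      intro v w
      have h2 := (hseg _ (Lc_lip S N i)).deriv_le hxo (hx1 i) (v, w)
      have h3 : fderiv ℝ (fun p => G i (S.chart c p)) x (v, w)
          = A1 i * v + A2 i * w := by
        have : ((v, w) : ℝ × ℝ) = v • (1, 0) + w • (0, 1) := by simp
        rw [this, map_add, map_smul, map_smul, smul_eq_mul, smul_eq_mul]
        simp only [hA1, hA2, hf]
        ring
      rw [← h3]
      exact h2
    have hfin := hfb a haper haadj
      (fun i => Dt * A1 i) (fun i => F * A1 i - E * A2 i) hXper hYper (E * Dt ^ 2) hnorm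
    -- the Jacobians
    have hjac : ∀ i j k l, k ≤ N → l ≤ N →
        jac (fun p => UU j l (S.chart c p)) (fun p => UU i k (S.chart c p)) x
        = if k = a i then (if l = a j then A1 j * A2 i - A2 j * A1 i else 0) else 0 := by
      intro i j k l hk hl
      have e1 := fderiv_clp hh0 n (f i) x (hf0 i) (hf1 i) (hx1 i)
        (fun k _ => hx2 i k) k (by omega)
      have e2 := fderiv_clp hh0 n (f j) x (hf0 j) (hf1 j) (hx1 j)
        (fun k _ => hx2 j k) l (by omega)
      have e1' : fderiv ℝ (fun p => UU i k (S.chart c p)) x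
          = if k = a i then fderiv ℝ (f i) x else 0 := e1
      have e2' : fderiv ℝ (fun p => UU j l (S.chart c p)) x
          = if l = a j then fderiv ℝ (f j) x else 0 := e2
      unfold jac
      rw [e1', e2']
      split_ifs <;> simp [hA1, hA2]
    have hsum : ∑ p ∈ PI N, (if p.2.1 < p.1 then 2 * cv P (p.1 - p.2.1) p.2.2.1 p.2.2.2 / s2
          else 0) * jac (fun y => UU p.2.1 p.2.2.2 (S.chart c y))
            (fun y => UU p.1 p.2.2.1 (S.chart c y)) x
        = ∑ i ∈ range N, ∑ j ∈ range i, 2 * cv P (i - j) (a i) (a j) / s2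
            * (A1 j * A2 i - A2 j * A1 i) := by
      have g1 : ∀ p ∈ PI N, (if p.2.1 < p.1 then 2 * cv P (p.1 - p.2.1) p.2.2.1 p.2.2.2 / s2
          else 0) * jac (fun y => UU p.2.1 p.2.2.2 (S.chart c y))
            (fun y => UU p.1 p.2.2.1 (S.chart c y)) x
          = (if p.2.1 < p.1 then 2 * cv P (p.1 - p.2.1) p.2.2.1 p.2.2.2 / s2 *
            (if p.2.2.1 = a p.1 then (if p.2.2.2 = a p.2.1 then
              A1 p.2.1 * A2 p.1 - A2 p.2.1 * A1 p.1 else 0) else 0) else 0) := by
        intro p hp
        unfold PI at hp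
        simp only [Finset.mem_product, Finset.mem_range] at hp
        rw [hjac p.1 p.2.1 p.2.2.1 p.2.2.2 (by omega) (by omega)]
        split_ifs <;> simp
      rw [Finset.sum_congr rfl g1, sum_PI N (fun i j k l => 2 * cv P (i - j) k l / s2 *
            (if k = a i then (if l = a j then A1 j * A2 i - A2 j * A1 i else 0) else 0))]
      apply Finset.sum_congr rfl
      intro i _
      apply Finset.sum_congr rfl
      intro j _
      have hai : a i ∈ range (N + 1) := by
        have := haper i
        exact Finset.mem_range.mpr (by omega)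
      have haj : a j ∈ range (N + 1) := by
        have := haper j
        exact Finset.mem_range.mpr (by omega)
      rw [Finset.sum_eq_single_of_mem (a i) hai, Finset.sum_eq_single_of_mem (a j) haj]
      · simp
      · intro l _ hl
        simp [hl]
      · intro k _ hk
        simp [hk]
    rw [hsum]
    have hmul : 2 * Fsum P a (fun i => Dt * A1 i) (fun i => F * A1 i - E * A2 i) N
        = (Dt * E * s2) * ∑ i ∈ range N, ∑ j ∈ range i, 2 * cv P (i - j) (a i) (a j) / s2
            * (A1 j * A2 i - A2 j * A1 i) := by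
      unfold Fsum
      rw [Finset.mul_sum, Finset.mul_sum]
      apply Finset.sum_congr rfl
      intro i _
      rw [Finset.mul_sum, Finset.mul_sum]
      apply Finset.sum_congr rfl
      intro j _
      field_simp
      ring
    rw [hmul] at hfin
    have hpos : 0 < Dt * E * s2 := by positivity
    have e4 : E * Dt ^ 2 * s2 = (Dt * E * s2) * Dt := by ring
    rw [e4] at hfin
    exact le_of_mul_le_mul_left hfin hpos
  · -- the boundary
    have hb : ∀ i k (t : ℝ), UU i k (S.boundary (t : AddCircle (2 * π)))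
        = clp (π / N) k (rho ((i : ℝ) * (π / N) - t)) := by
      intro i k t
      simp only [hUU, hG]
      rw [Lc_bdry S hN hS]
    have hlim : ∀ p ∈ PI N, Tendsto (fun m : ℕ =>
        (if p.2.1 < p.1 then 2 * cv P (p.1 - p.2.1) p.2.2.1 p.2.2.2 / s2 else 0) *
        (loopSum S.brk (fun t => UU p.2.1 p.2.2.2 (S.boundary (t : AddCircle (2 * π))))
          (fun t => UU p.1 p.2.2.1 (S.boundary (t : AddCircle (2 * π)))) m / 2)) atTop
        (𝓝 ((if p.2.1 < p.1 then 2 * cv P (p.1 - p.2.1) p.2.2.1 p.2.2.2 / s2 else 0) *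
          (pp (fun t => clp (π / N) p.2.2.2 (rho ((p.2.1 : ℝ) * (π / N) - t)))
            (fun t => clp (π / N) p.2.2.1 (rho ((p.1 : ℝ) * (π / N) - t)))
            (π / (2 * N)) (4 * N) / 2))) := by
      intro p _
      apply Tendsto.const_mul
      apply Tendsto.div_const
      simp only [hb]
      apply tendsto_loopSum S.brk S.brk_strictMono S.brk_zero (by positivity) (4 * N) (by
        rw [S.brk_last]; push_cast; field_simp; ring) (pwAff_clp hN _ _) (pwAff_clp hN _ _)
        (zero_le_one) (clp_rho_lip N _ _) (clp_rho_lip N _ _)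
    have hlim2 := tendsto_finsetSum (PI N) hlim
    convert hlim2 using 2
    have g1 : ∀ p ∈ PI N, (if p.2.1 < p.1 then 2 * cv P (p.1 - p.2.1) p.2.2.1 p.2.2.2 / s2
          else 0) * (pp (fun t => clp (π / N) p.2.2.2 (rho ((p.2.1 : ℝ) * (π / N) - t)))
            (fun t => clp (π / N) p.2.2.1 (rho ((p.1 : ℝ) * (π / N) - t)))
            (π / (2 * N)) (4 * N) / 2)
        = (if p.2.1 < p.1 then (π / (2 * N)) ^ 2 / s2 * (cv P (p.1 - p.2.1) p.2.2.1 p.2.2.2 *
          (∑ q ∈ range (4 * N), ((cl p.2.2.2 (uu N p.2.1 q) *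
              cl p.2.2.1 (uu N p.1 (q + 1)) : ℕ) : ℝ)
          - ∑ q ∈ range (4 * N), ((cl p.2.2.2 (uu N p.2.1 (q + 1)) *
              cl p.2.2.1 (uu N p.1 q) : ℕ) : ℝ))) else 0) := by
      intro p _
      rw [pp_clp hN]
      split_ifs
      · ring
      · ring
    rw [Finset.sum_congr rfl g1, sum_PI N (fun i j k l => (π / (2 * N)) ^ 2 / s2 *
      (cv P (i - j) k l *
        (∑ q ∈ range (4 * N), ((cl l (uu N j q) * cl k (uu N i (q + 1)) : ℕ) : ℝ)
        - ∑ q ∈ range (4 * N), ((cl l (uu N j (q + 1)) * cl k (uu N i q) : ℕ) : ℝ))))]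
    rw [Finset.mul_sum]
    apply Finset.sum_congr rfl
    intro i _
    rw [Finset.mul_sum]
    apply Finset.sum_congr rfl
    intro j _
    rw [Finset.mul_sum]
    apply Finset.sum_congr rfl
    intro k _
    rw [Finset.mul_sum]

/-- **The collar of width `π / 2` has area at least `1.901 π`.** -/
theorem collar_area (hS : LipPoints S 14) :
    1.901 * π ≤ ∑ k, ∫ x in Sq ∩ collar S k, dens (S.metric k) x := by
  have h0 : ∀ k, ∫ x in Sq, (Sq ∩ collar S k).indicator (dens (S.metric k)) x =
      ∫ x in Sq ∩ collar S k, dens (S.metric k) x := by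
    intro k
    rw [integral_indicator (collar_meas S k), Measure.restrict_restrict (collar_meas S k)]
    congr 2
    ext x
    simp only [Set.mem_inter_iff]
    tauto
  rw [← Finset.sum_congr rfl (fun k _ => h0 k)]
  have h1 := collar_ge_lattice S Pool.Agent.TH502.FA.N14.P 14 7 (by norm_num) (by norm_num)
    400000 (by norm_num) hS Pool.Agent.TH502.FA.N14.bound
  have h2 := flux_eq Pool.Agent.TH502.FA.N14.P 14 189763336 Pool.Agent.TH502.FA.N14.flux
  have hpi := Real.pi_gt_d6
  have hpos := Real.pi_pos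
  refine le_trans ?_ h1
  have h3 : (π / (2 * (14 : ℕ))) ^ 2 / (400000 : ℕ) * (189763336 : ℕ) ≤
      (π / (2 * (14 : ℕ))) ^ 2 / (400000 : ℕ) * (∑ i ∈ range 14, ∑ j ∈ range i,
        ∑ k ∈ range (14 + 1), ∑ l ∈ range (14 + 1), cv Pool.Agent.TH502.FA.N14.P (i - j) k l *
        (∑ q ∈ range (4 * 14), ((cl l (uu 14 j q) * cl k (uu 14 i (q + 1)) : ℕ) : ℝ)
        - ∑ q ∈ range (4 * 14), ((cl l (uu 14 j (q + 1)) * cl k (uu 14 i q) : ℕ) : ℝ))) :=
    mul_le_mul_of_nonneg_left h2 (by positivity)
  refine le_trans ?_ h3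
  push_cast
  have h4 : (π / (2 * 14)) ^ 2 / 400000 * 189763336 =
      (189763336 / (4 * 14 ^ 2 * 400000)) * π ^ 2 := by ring
  rw [h4]
  nlinarith

end

end Pool.Agent.R248.FA
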