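import Mathlib
import Pool.Agent.R248.FA.Ident

/-!
# Fillings of the circle: area and the number of turns of the gradients
-/

set_option autoImplicit false

open Finset Real MeasureTheory Filter Topology Set

namespace Pool.Agent.R248.FA

open Pool.Agent.H115R3.Filling Pool.Agent.W664.Fill

theorem dens_sq {g : RiemMetric} {x : ℝ × ℝ} (hx : x ∈ Sq) :
    dens g x ^ 2 = g.E x * g.G x - g.F x ^ 2 := Real.sq_sqrt (g.pos_det x hx).le

theorem dens_pos {g : RiemMetric} {x : ℝ × ℝ} (hx : x ∈ Sq) : 0 < dens g x :=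
  Real.sqrt_pos.2 (g.pos_det x hx)

/-- the gradient of a `1`-Lipschitz function has length at most one -/
theorem GradPolar.le_one {g : RiemMetric} {f : ℝ × ℝ → ℝ} {x : ℝ × ℝ} {r φ : ℝ}
    (h : GradPolar g f x r φ) (hf : SegLip g f) (hx : x ∈ Sqo) (hd : DifferentiableAt ℝ f x) :
    r ≤ 1 := by
  have hxS := Sqo_sub hx
  have hE := g.pos_E x hxS
  have hs : 0 < √(g.E x) := Real.sqrt_pos.2 hE
  have hsq : √(g.E x) ^ 2 = g.E x := Real.sq_sqrt hE.le
  have hD := dens_pos (g := g) hxS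
  have hDsq := dens_sq (g := g) hxS
  obtain ⟨h0, h1, h2⟩ := h
  set s := √(g.E x) with hsd
  set D := dens g x with hDd
  set v2 : ℝ := sin φ * s / D with hv2
  set v1 : ℝ := (cos φ - g.F x / s * v2) / s with hv1
  have hv := hf.deriv_le hx hd (v1, v2)
  have e1 : fderiv ℝ f x (v1, v2) = v1 * fderiv ℝ f x (1, 0) + v2 * fderiv ℝ f x (0, 1) := by
    have : ((v1, v2) : ℝ × ℝ) = v1 • (1, 0) + v2 • (0, 1) := by simp
    rw [this, map_add, map_smul, map_smul, smul_eq_mul, smul_eq_mul]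
  have hcs := sin_sq_add_cos_sq φ
  have e2 : fderiv ℝ f x (v1, v2) = r := by
    rw [e1, h1, h2, hv1, hv2]
    field_simp
    linear_combination r * D * hcs
  have e3 : g.E x * v1 ^ 2 + 2 * g.F x * v1 * v2 + g.G x * v2 ^ 2 = 1 := by
    have k1 : s * v1 + g.F x / s * v2 = cos φ := by
      rw [hv1]
      field_simp
      ring
    have k2 : D / s * v2 = sin φ := by
      rw [hv2]
      field_simp
    have k3 : g.E x * v1 ^ 2 + 2 * g.F x * v1 * v2 + g.G x * v2 ^ 2 =
        (s * v1 + g.F x / s * v2) ^ 2 + (D / s * v2) ^ 2 := by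
      have : g.G x = (D ^ 2 + g.F x ^ 2) / s ^ 2 := by
        rw [hDsq, hsq]
        field_simp
        ring
      rw [this, ← hsq]
      field_simp
      ring
    rw [k3, k1, k2]
    linarith
  simp only at hv
  rw [e2, e3] at hv
  nlinarith

/-- the Jacobian in polar coordinates -/
theorem jac_polar {g : RiemMetric} {f h : ℝ × ℝ → ℝ} {x : ℝ × ℝ} {r φ s ψ : ℝ} (hx : x ∈ Sq)
    (hf : GradPolar g f x r φ) (hh : GradPolar g h x s ψ) :
    jac f h x = r * s * sin (ψ - φ) * dens g x := by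
  have hE := g.pos_E x hx
  have hs : 0 < √(g.E x) := Real.sqrt_pos.2 hE
  obtain ⟨-, h1, h2⟩ := hf
  obtain ⟨-, k1, k2⟩ := hh
  unfold jac
  rw [h1, h2, k1, k2, sin_sub]
  field_simp
  ring

theorem Turns.le {g : RiemMetric} {N : ℕ} {f : ℕ → ℝ × ℝ → ℝ} {x : ℝ × ℝ} {w : ℝ}
    (h : Turns g N f x w) (hf : ∀ j, SegLip g (f j)) (hx : x ∈ Sqo)
    (hd : ∀ j, DifferentiableAt ℝ (f j) x) :
    ∑ j ∈ range N, jac (f j) (f (j + 1)) x ≤ 2 * π * (w * dens g x) := by
  have hxS := Sqo_sub hx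
  have hD := dens_pos (g := g) hxS
  obtain ⟨r, φ, hp, hm, hw⟩ := h
  have h1 : ∀ j ∈ range N, jac (f j) (f (j + 1)) x ≤ (φ (j + 1) - φ j) * dens g x := by
    intro j hj
    have hj' := Finset.mem_range.1 hj
    have p1 := hp j hj'.le
    have p2 := hp (j + 1) hj'
    rw [jac_polar hxS p1 p2]
    apply mul_le_mul_of_nonneg_right _ hD.le
    have a1 := p1.le_one (hf j) hx (hd j)
    have a2 := p2.le_one (hf (j + 1)) hx (hd (j + 1))
    have b1 := p1.1
    have b2 := p2.1
    have c1 := hm j hj'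
    have c2 : 0 ≤ r j * r (j + 1) := mul_nonneg b1 b2
    have c3 : r j * r (j + 1) ≤ 1 := mul_le_one₀ a1 b2 a2
    have c4 : sin (φ (j + 1) - φ j) ≤ φ (j + 1) - φ j := sin_le (by linarith)
    calc r j * r (j + 1) * sin (φ (j + 1) - φ j) ≤ r j * r (j + 1) * (φ (j + 1) - φ j) :=
          mul_le_mul_of_nonneg_left c4 c2
      _ ≤ 1 * (φ (j + 1) - φ j) := mul_le_mul_of_nonneg_right c3 (by linarith)
      _ = φ (j + 1) - φ j := one_mul _
  refine (Finset.sum_le_sum h1).trans (le_of_eq ?_)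
  rw [← Finset.sum_mul, Finset.sum_range_sub, hw]
  ring

/-- polar coordinates of the gradient -/
theorem exists_polar (g : RiemMetric) (f : ℝ × ℝ → ℝ) {x : ℝ × ℝ} (hx : x ∈ Sq) :
    ∃ z : ℂ, GradPolar g f x ‖z‖ z.arg := by
  have hE := g.pos_E x hx
  have hs : 0 < √(g.E x) := Real.sqrt_pos.2 hE
  have hsq : √(g.E x) ^ 2 = g.E x := Real.sq_sqrt hE.le
  have hD := dens_pos (g := g) hx
  set s := √(g.E x) with hsd
  set D := dens g x with hDd
  set a := fderiv ℝ f x (1, 0) with ha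
  set b := fderiv ℝ f x (0, 1) with hb
  refine ⟨⟨a / s, (b - a / s * (g.F x / s)) * s / D⟩, norm_nonneg _, ?_, ?_⟩
  · rw [Complex.norm_mul_cos_arg, ← ha]
    simp only
    rw [← hsd]
    field_simp
  · rw [Complex.norm_mul_cos_arg, Complex.norm_mul_sin_arg, ← hb]
    simp only
    rw [← hsd, ← hDd]
    field_simp
    ring

/-- `N` turns are always possible -/
theorem turns_all (g : RiemMetric) {N : ℕ} {f : ℕ → ℝ × ℝ → ℝ} (hc : f N = f 0) {x : ℝ × ℝ}
    (hx : x ∈ Sq) : Turns g N f x N := by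
  choose z hz using fun j => exists_polar g (f j) hx
  set z' : ℕ → ℂ := fun j => if j = N then z 0 else z j with hz'
  have hp : ∀ j, GradPolar g (f j) x ‖z' j‖ (z' j).arg := by
    intro j
    by_cases hj : j = N
    · have : z' j = z 0 := by rw [hz']; simp [hj]
      rw [this, hj, hc]
      exact hz 0
    · have : z' j = z j := by rw [hz']; simp [hj]
      rw [this]
      exact hz j
  refine ⟨fun j => ‖z' j‖, fun j => (z' j).arg + 2 * π * j, fun j _ => ?_, fun j _ => ?_, ?_⟩
  · obtain ⟨h0, h1, h2⟩ := hp j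
    have e1 : cos ((z' j).arg + 2 * π * j) = cos (z' j).arg := by
      have := Real.cos_add_nat_mul_two_pi (z' j).arg j
      rw [← this]
      congr 1
      ring
    have e2 : sin ((z' j).arg + 2 * π * j) = sin (z' j).arg := by
      have := Real.sin_add_nat_mul_two_pi (z' j).arg j
      rw [← this]
      congr 1
      ring
    refine ⟨h0, ?_, ?_⟩
    · rw [e1]; exact h1
    · rw [e1, e2]; exact h2
  · have h1 := Complex.neg_pi_lt_arg (z' (j + 1))
    have h2 := Complex.arg_le_pi (z' j)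
    simp only
    push_cast
    linarith
  · have e1 : z' N = z 0 := by rw [hz']; simp
    have e2 : z' 0 = z 0 := by
      rw [hz']
      simp only
      split_ifs <;> rfl
    simp only
    rw [e1, e2]
    push_cast
    ring

section

variable {M : Type} [MetricSpace M] {S : OrientedSurface M}

theorem sum_jac_int {N : ℕ} {u : ℕ → M → ℝ} (h : Extends S N u) (k : Fin S.faces) :
    IntegrableOn (fun x => ∑ j ∈ range N, jac (inChart S u k j) (inChart S u k (j + 1)) x) Sq :=
  integrable_finsetSum _ (fun j _ =>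
      (square_lim (S.metric k) (segLip S (h.lip j) k) (segLip S (h.lip (j + 1)) k)).1)

theorem Sqo_ae {p : ℝ × ℝ → Prop} :
    (∀ᵐ x ∂(volume.restrict Sqo), p x) ↔ ∀ᵐ x ∂(volume.restrict Sq), p x := by
  have h1 : volume.restrict Sqo = (volume.restrict Sq : Measure (ℝ × ℝ)) := by
    rw [← Measure.restrict_congr_set Sqh_ae_eq_Sqo, Measure.restrict_congr_set Sqh_ae_eq_Sq]
  rw [h1]

theorem Extends.general {N : ℕ} (hN : 2 ≤ N) {u : ℕ → M → ℝ} (h : Extends S N u)
    (w : Fin S.faces → ℝ × ℝ → ℝ)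
    (hw : ∀ k, IntegrableOn (fun x => w k x * dens (S.metric k) x) Sq)
    (ht : ∀ k, ∀ᵐ x ∂(volume.restrict Sqo), x ∈ Sqo →
      (∀ j, DifferentiableAt ℝ (inChart S u k j) x) →
      ∑ j ∈ range N, jac (inChart S u k j) (inChart S u k (j + 1)) x ≤
        2 * π * (w k x * dens (S.metric k) x)) :
    2 * π * (1 - 2 / N) ≤ ∑ k, ∫ x in Sq, w k x * dens (S.metric k) x := by
  have hid := h.identity hN
  have h1 : ∀ k, ∫ x in Sq, ∑ j ∈ range N, jac (inChart S u k j) (inChart S u k (j + 1)) x ≤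
      2 * π * ∫ x in Sq, w k x * dens (S.metric k) x := by
    intro k
    rw [← integral_const_mul]
    apply integral_mono_ae (sum_jac_int h k) ((hw k).const_mul _)
    rw [EventuallyLE, ← Sqo_ae]
    have hd : ∀ᵐ x ∂(volume.restrict Sqo), ∀ j, DifferentiableAt ℝ (inChart S u k j) x := by
      rw [ae_all_iff]
      intro j
      exact (segLip S (h.lip j) k).ae_diff
    filter_upwards [hd, ht k, self_mem_ae_restrict isOpen_Sqo.measurableSet]
      with x hx1 hx2 hx3
    exact hx2 hx3 hx1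
  have h2 := Finset.sum_le_sum (fun k (_ : k ∈ Finset.univ) => h1 k)
  rw [hid, ← Finset.mul_sum] at h2
  have hpi := Real.pi_pos
  have h3 : 4 * π ^ 2 * (1 - 2 / N) = 2 * π * (2 * π * (1 - 2 / N)) := by ring
  rw [h3] at h2
  exact le_of_mul_le_mul_left h2 (by positivity)

/-- the trivial bound -/
theorem sum_jac_le {g : RiemMetric} {N : ℕ} {f : ℕ → ℝ × ℝ → ℝ} {x : ℝ × ℝ}
    (hf : ∀ j, SegLip g (f j)) (hx : x ∈ Sqo) (hd : ∀ j, DifferentiableAt ℝ (f j) x) :
    ∑ j ∈ range N, jac (f j) (f (j + 1)) x ≤ N * dens g x := by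
  have hxS := Sqo_sub hx
  have hD := dens_pos (g := g) hxS
  have h1 : ∀ j ∈ range N, jac (f j) (f (j + 1)) x ≤ dens g x := by
    intro j _
    obtain ⟨z, hz⟩ := exists_polar g (f j) hxS
    obtain ⟨z', hz'⟩ := exists_polar g (f (j + 1)) hxS
    rw [jac_polar hxS hz hz']
    have a1 := hz.le_one (hf j) hx (hd j)
    have a2 := hz'.le_one (hf (j + 1)) hx (hd (j + 1))
    have c2 : 0 ≤ ‖z‖ * ‖z'‖ := by positivity
    have c3 : ‖z‖ * ‖z'‖ ≤ 1 := mul_le_one₀ a1 (norm_nonneg _) a2
    have c4 := sin_le_one (z'.arg - z.arg)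
    have c5 : ‖z‖ * ‖z'‖ * sin (z'.arg - z.arg) ≤ 1 :=
      (mul_le_of_le_one_right c2 c4).trans c3
    exact mul_le_of_le_one_left hD.le c5
  refine (Finset.sum_le_sum h1).trans (le_of_eq ?_)
  rw [Finset.sum_const, card_range, nsmul_eq_mul]

/-- **The area counted with the number of turns.** -/
theorem Extends.weighted {N : ℕ} (hN : 2 ≤ N) {u : ℕ → M → ℝ} (h : Extends S N u)
    (w : Fin S.faces → ℝ × ℝ → ℝ)
    (hw : ∀ k, IntegrableOn (fun x => min (w k x) (N / (2 * π)) * dens (S.metric k) x) Sq)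
    (ht : ∀ k, ∀ᵐ x ∂(volume.restrict Sq), Turns (S.metric k) N (inChart S u k) x (w k x)) :
    2 * π * (1 - 2 / N) ≤ ∑ k, ∫ x in Sq, min (w k x) (N / (2 * π)) * dens (S.metric k) x := by
  have hpi := Real.pi_pos
  apply h.general hN _ hw
  intro k
  filter_upwards [Sqo_ae.2 (ht k)] with x hx2 hx3 hx1
  have h1 := hx2.le (fun j => segLip S (h.lip j) k) hx3 hx1
  have h2 := sum_jac_le (g := S.metric k) (N := N) (fun j => segLip S (h.lip j) k) hx3 hx1
  rcases min_choice (w k x) (N / (2 * π)) with hm | hm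
  · rw [hm]
    exact h1
  · rw [hm]
    refine h2.trans (le_of_eq ?_)
    field_simp

/-- **The defect inequality.** -/
theorem Extends.defect {N : ℕ} (hN : 2 ≤ N) {u : ℕ → M → ℝ} (h : Extends S N u)
    (B : Fin S.faces → Set (ℝ × ℝ)) (hB : ∀ k, MeasurableSet (B k)) (ho : OrderedOff S N u B) :
    2 * π * (1 - 2 / N) ≤ S.area + (N / (2 * π) - 1) * areaOf S B := by
  classical
  have hpi := Real.pi_pos
  have hdi : ∀ k, IntegrableOn (dens (S.metric k)) Sq := fun k => (S.metric k).integrableOn_density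
  have e : ∀ k, (fun x => (1 + (N / (2 * π) - 1 : ℝ) * (B k).indicator 1 x) *
      dens (S.metric k) x) = fun x => dens (S.metric k) x +
        (N / (2 * π) - 1 : ℝ) * (B k).indicator (dens (S.metric k)) x := by
    intro k
    funext x
    by_cases hx : x ∈ B k
    · simp only [hx, Set.indicator_of_mem, Pi.one_apply]
      ring
    · simp [hx]
  have hw : ∀ k, IntegrableOn (fun x => (1 + (N / (2 * π) - 1 : ℝ) * (B k).indicator 1 x) *
      dens (S.metric k) x) Sq := by
    intro k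
    rw [e k]
    exact (hdi k).add (((hdi k).indicator (hB k)).const_mul _)
  have h1 := h.general hN (fun k x => 1 + (N / (2 * π) - 1 : ℝ) * (B k).indicator 1 x) hw (by
    intro k
    filter_upwards [Sqo_ae.2 (ho k)] with x hx2 hx3 hx1
    by_cases hx : x ∈ B k
    · have h2 := sum_jac_le (g := S.metric k) (N := N) (fun j => segLip S (h.lip j) k) hx3 hx1
      refine h2.trans (le_of_eq ?_)
      simp only [hx, Set.indicator_of_mem, Pi.one_apply]
      field_simp
      ring
    · have h2 := (hx2 hx).le (fun j => segLip S (h.lip j) k) hx3 hx1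
      refine h2.trans (le_of_eq ?_)
      simp [hx])
  refine h1.trans (le_of_eq ?_)
  unfold areaOf OrientedSurface.area RiemMetric.area
  rw [Finset.mul_sum, ← Finset.sum_add_distrib]
  apply Finset.sum_congr rfl
  intro k _
  show ∫ x in Sq, (1 + (N / (2 * π) - 1 : ℝ) * (B k).indicator 1 x) * dens (S.metric k) x = _
  rw [e k, integral_add (hdi k) (((hdi k).indicator (hB k)).const_mul _), integral_const_mul,
    integral_indicator (hB k), Measure.restrict_restrict (hB k), Set.inter_comm]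
  rfl

theorem areaOf_nonneg (B : Fin S.faces → Set (ℝ × ℝ)) : 0 ≤ areaOf S B :=
  Finset.sum_nonneg fun _ _ => integral_nonneg fun _ => Real.sqrt_nonneg _

/-- the extensions exist -/
theorem exists_extends (hS : S.NoShortcut) {N : ℕ} (hN : 0 < N) :
    Extends S N (fun j => ext S.boundary ((2 * π * j / N : ℝ) : AddCircle (2 * π))) := by
  have hNr : (0 : ℝ) < N := by exact_mod_cast hN
  refine ⟨fun j x y => ext_lip _ _ _ _, fun j t => ext_boundary hS _ _, ?_⟩
  have e : (2 * π * (N : ℝ) / N : ℝ) = 2 * π * ((0 : ℕ) : ℝ) / N + 2 * π := by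
    field_simp
    push_cast
    ring
  rw [e, AddCircle.coe_add, AddCircle.coe_period, add_zero]

/-- the distance functions of an isometric filling -/
theorem dist_extends (hS : ∀ x y, dist (S.boundary x) (S.boundary y) = dist x y) {N : ℕ}
    (hN : 0 < N) :
    Extends S N (fun j x => dist (S.boundary ((2 * π * j / N : ℝ) : AddCircle (2 * π))) x) := by
  have hNr : (0 : ℝ) < N := by exact_mod_cast hN
  refine ⟨fun j x y => ?_, fun j t => hS _ _, ?_⟩
  · rw [dist_comm _ x, dist_comm _ y]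
    exact abs_dist_sub_le _ _ _
  have e : (2 * π * (N : ℝ) / N : ℝ) = 2 * π * ((0 : ℕ) : ℝ) / N + 2 * π := by
    field_simp
    push_cast
    ring
  rw [e, AddCircle.coe_add, AddCircle.coe_period, add_zero]

/-- quadratic form of the defect inequality -/
theorem defect_sq {N : ℕ} {A b : ℝ} (hA : A < 2 * π) (h1 : 8 * π / (2 * π - A) ≤ N)
    (h2 : (N : ℝ) ≤ 8 * π / (2 * π - A) + 1) (hb : 0 ≤ b)
    (h : 2 * π * (1 - 2 / N) ≤ A + (N / (2 * π) - 1) * b) : (2 * π - A) ^ 2 ≤ 8 * b := by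
  have hpi := Real.pi_pos
  have hpi3 := Real.pi_gt_three
  set ε := 2 * π - A with hε
  have hε0 : 0 < ε := by rw [hε]; linarith
  have hN0 : (0 : ℝ) < N := lt_of_lt_of_le (by positivity) h1
  have h3 : 4 * π / N ≤ ε / 2 := by
    rw [div_le_iff₀ hN0]
    rw [div_le_iff₀ hε0] at h1
    linarith
  have h4' : (N / (2 * π) - 1 : ℝ) ≤ 4 / ε := by
    have : (N / (2 * π) : ℝ) ≤ (8 * π / ε + 1) / (2 * π) :=
      div_le_div_of_nonneg_right h2 (by positivity)
    have h5 : (8 * π / ε + 1) / (2 * π) = 4 / ε + 1 / (2 * π) := by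
      field_simp
      ring
    have h6 : 1 / (2 * π) ≤ 1 := by
      rw [div_le_one (by positivity)]
      linarith
    linarith
  have h4 : (N / (2 * π) - 1 : ℝ) * b ≤ 4 / ε * b := mul_le_mul_of_nonneg_right h4' hb
  have h5 : 2 * π * (1 - 2 / N) = 2 * π - 4 * π / N := by ring
  rw [h5] at h
  have h6 : ε / 2 ≤ 4 / ε * b := by linarith
  have h7 : 4 / ε * b = 4 * b / ε := by ring
  rw [h7, le_div_iff₀ hε0] at h6
  nlinarith

end

end Pool.Agent.R248.FA
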