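import Mathlib
import Pool.Agent.R248.FA.Collar

/-!
# The lattice calibration, with the weight `(π / m)²`
-/

set_option autoImplicit false

open Finset Real MeasureTheory Filter Topology Set

namespace Pool.Agent.R248.FA

open Pool.Agent.W664.Fill Pool.Agent.H115R3.Filling Pool.Agent.TH502.FA

section

variable {M : Type} [MetricSpace M] (S : OrientedSurface M)

/-- arcs of the boundary are not longer than in the circle, and there are no shortcuts between
the antipodal points `i π / N` and `i π / N + π`, `i < N` -/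
structure Pairs (N : ℕ) : Prop where
  len : ∀ s t : AddCircle (2 * π), dist (S.boundary s) (S.boundary t) ≤ dist s t
  anti : ∀ i < N, π ≤ dist (S.boundary (pt N i)) (S.boundary (pt N i + (π : ℝ)))

/-- distance to the boundary point `i π / N` -/
noncomputable def Du (N i : ℕ) (x : M) : ℝ := dist (S.boundary (pt N i)) x

theorem pt_add {N : ℕ} (hN : 0 < N) (i : ℕ) : pt N (i + N) = pt N i + (π : ℝ) := by
  have hNr : (N : ℝ) ≠ 0 := by exact_mod_cast hN.ne'
  unfold pt
  rw [← AddCircle.coe_add]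
  congr 1
  push_cast
  field_simp

theorem pt_add2 {N : ℕ} (hN : 0 < N) (i : ℕ) : pt N (i + N + N) = pt N i := by
  rw [pt_add hN, pt_add hN, add_assoc, ← AddCircle.coe_add,
    show π + π = 2 * π by ring, AddCircle.coe_period, add_zero]

variable {S} in
theorem Pairs.all {N : ℕ} (h : Pairs S N) (hN : 0 < N) (i : ℕ) :
    π ≤ dist (S.boundary (pt N i)) (S.boundary (pt N (i + N))) := by
  induction i using Nat.strong_induction_on with
  | _ i ih =>
    rcases Nat.lt_or_ge i N with hi | hi
    · rw [pt_add hN]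
      exact h.anti i hi
    · obtain ⟨j, rfl⟩ : ∃ j, i = j + N := ⟨i - N, by omega⟩
      rw [pt_add2 hN, dist_comm]
      exact ih j (by omega)

variable {S} in
theorem Pairs.bd {N : ℕ} (h : Pairs S N) (hN : 0 < N) (i : ℕ) (t : ℝ) :
    Du S N i (S.boundary (t : AddCircle (2 * π))) = rho ((i : ℝ) * (π / N) - t) := by
  have e0 : dist (pt N i) (t : AddCircle (2 * π)) = rho ((i : ℝ) * (π / N) - t) := by
    unfold pt
    rw [dist_eq_rho]
  have e1 : dist (t : AddCircle (2 * π)) (pt N (i + N)) = π - rho ((i : ℝ) * (π / N) - t) := by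
    rw [dist_comm, pt_add hN]
    unfold pt
    rw [← AddCircle.coe_add, dist_eq_rho, rho_anti]
  unfold Du
  apply le_antisymm
  · rw [← e0]
    exact h.len _ _
  · have h1 := h.all hN i
    have h2 := dist_triangle (S.boundary (pt N i)) (S.boundary (t : AddCircle (2 * π)))
      (S.boundary (pt N (i + N)))
    have h3 := h.len (t : AddCircle (2 * π)) (pt N (i + N))
    rw [e1] at h3
    linarith

variable {S} in
theorem Pairs.sum {N : ℕ} (h : Pairs S N) (hN : 0 < N) (i : ℕ) (x : M) :
    π ≤ Du S N i x + Du S N (i + N) x := by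
  refine (h.all hN i).trans ?_
  unfold Du
  rw [dist_comm _ x, dist_comm _ x, dist_comm x]
  exact dist_triangle _ _ _

theorem Du_lip (N i : ℕ) (x y : M) : |Du S N i x - Du S N i y| ≤ dist x y := by
  unfold Du
  rw [dist_comm _ x, dist_comm _ y]
  exact abs_dist_sub_le _ _ _

theorem Du_nonneg (N i : ℕ) (x : M) : 0 ≤ Du S N i x := dist_nonneg

variable {S} in
theorem Pairs.adj {N : ℕ} (h : Pairs S N) (i : ℕ) (x : M) :
    |Du S N (i + 1) x - Du S N i x| ≤ π / N := by
  have e1 : dist (pt N (i + 1)) (pt N i) ≤ π / N := by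
    unfold pt
    rw [dist_eq_rho]
    have := rho_sub_le (((i + 1 : ℕ) : ℝ) * (π / N) - (i : ℝ) * (π / N)) 0
    have h0 : rho 0 = 0 := by simp [rho]
    rw [h0, sub_zero, sub_zero] at this
    refine (le_abs_self _).trans (this.trans (le_of_eq ?_))
    rw [show ((i + 1 : ℕ) : ℝ) * (π / N) - (i : ℝ) * (π / N) = π / N by push_cast; ring]
    exact abs_of_nonneg (by positivity)
  unfold Du
  exact (abs_dist_sub_le _ _ _).trans ((h.len _ _).trans e1)

/-- elementary estimate -/
theorem quot_le {u v u' v' d : ℝ} (hu : 0 ≤ u) (hv : 0 ≤ v) (hs : π ≤ u + v) (hs' : π ≤ u' + v')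
    (h1 : |u - u'| ≤ d) (h2 : |v - v'| ≤ d) :
    |π * u / (u + v) - π * u' / (u' + v')| ≤ d := by
  have hpi := Real.pi_pos
  have hp : 0 < u + v := by linarith
  have hp' : 0 < u' + v' := by linarith
  have hd : 0 ≤ d := (abs_nonneg _).trans h1
  have e : π * u / (u + v) - π * u' / (u' + v') =
      π * (u * (v' - v) + v * (u - u')) / ((u + v) * (u' + v')) := by
    field_simp
    ring
  rw [e, abs_div, abs_of_pos (mul_pos hp hp'), div_le_iff₀ (mul_pos hp hp'), abs_mul,
    abs_of_pos hpi]
  have h3 : |u * (v' - v) + v * (u - u')| ≤ (u + v) * d := by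
    refine (abs_add_le _ _).trans ?_
    rw [abs_mul, abs_mul, abs_of_nonneg hu, abs_of_nonneg hv, abs_sub_comm v' v]
    nlinarith
  calc π * |u * (v' - v) + v * (u - u')| ≤ π * ((u + v) * d) :=
        mul_le_mul_of_nonneg_left h3 hpi.le
    _ = ((u + v) * d) * π := by ring
    _ ≤ ((u + v) * d) * (u' + v') := mul_le_mul_of_nonneg_left hs' (by positivity)
    _ = d * ((u + v) * (u' + v')) := by ring

/-- the functions `π u / (u + v)` -/
noncomputable def Wf (N i : ℕ) (x : M) : ℝ := π * Du S N i x / (Du S N i x + Du S N (i + N) x)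

variable {S} in
theorem Wf_lip {N : ℕ} (h : Pairs S N) (hN : 0 < N) (i : ℕ) (x y : M) :
    |Wf S N i x - Wf S N i y| ≤ dist x y :=
  quot_le (Du_nonneg _ _ _ _) (Du_nonneg _ _ _ _) (h.sum hN i x) (h.sum hN i y)
    (Du_lip _ _ _ _ _) (Du_lip _ _ _ _ _)

variable {S} in
theorem Wf_adj {N : ℕ} (h : Pairs S N) (hN : 0 < N) (i : ℕ) (x : M) :
    |Wf S N (i + 1) x - Wf S N i x| ≤ π / N := by
  unfold Wf
  apply quot_le (Du_nonneg _ _ _ _) (Du_nonneg _ _ _ _) (h.sum hN (i + 1) x) (h.sum hN i x)
    (h.adj i x)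
  have := h.adj (i + N) x
  rwa [show i + N + 1 = i + 1 + N by ring] at this

variable {S} in
theorem Wf_range {N : ℕ} (h : Pairs S N) (hN : 0 < N) (i : ℕ) (x : M) :
    0 ≤ Wf S N i x ∧ Wf S N i x ≤ π := by
  have hpi := Real.pi_pos
  have h1 := Du_nonneg S N i x
  have h2 := Du_nonneg S N (i + N) x
  have h3 := h.sum hN i x
  unfold Wf
  refine ⟨by positivity, ?_⟩
  rw [div_le_iff₀ (by linarith)]
  nlinarith

variable {S} in
theorem Wf_anti {N : ℕ} (h : Pairs S N) (hN : 0 < N) (i : ℕ) (x : M) :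
    Wf S N (i + N) x = π - Wf S N i x := by
  have hpi := Real.pi_pos
  have h3 := h.sum hN i x
  have e : Du S N (i + N + N) x = Du S N i x := by
    unfold Du
    rw [pt_add2 hN]
  unfold Wf
  rw [e]
  have h4 : Du S N i x + Du S N (i + N) x ≠ 0 := by linarith
  have h5 : Du S N (i + N) x + Du S N i x ≠ 0 := by linarith
  field_simp
  ring

variable {S} in
theorem Wf_bdry {N : ℕ} (h : Pairs S N) (hN : 0 < N) (i : ℕ) (t : ℝ) :
    Wf S N i (S.boundary (t : AddCircle (2 * π))) = rho ((i : ℝ) * (π / N) - t) := by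
  have hpi := Real.pi_pos
  have hNr : (N : ℝ) ≠ 0 := by exact_mod_cast hN.ne'
  unfold Wf
  rw [h.bd hN, h.bd hN]
  have e : ((i + N : ℕ) : ℝ) * (π / N) - t = ((i : ℝ) * (π / N) - t) + π := by
    push_cast
    field_simp
    ring
  rw [e, rho_add_pi]
  field_simp
  ring

/-- the least sum of the distances to two antipodal points `i π / N`, `i π / N + π`, `i < N` -/
noncomputable def mm (N : ℕ) (x : M) : ℝ := ⨅ i : Fin N, (Du S N i x + Du S N (i + N) x)

variable {S} in
theorem mm_le {N : ℕ} (_h : Pairs S N) (hN : 0 < N) (i : ℕ) (x : M) :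
    mm S N x ≤ Du S N i x + Du S N (i + N) x := by
  induction i using Nat.strong_induction_on with
  | _ i ih =>
    rcases Nat.lt_or_ge i N with hi | hi
    · exact ciInf_le (Set.finite_range _).bddBelow (⟨i, hi⟩ : Fin N)
    · obtain ⟨j, rfl⟩ : ∃ j, i = j + N := ⟨i - N, by omega⟩
      have e : Du S N (j + N + N) x = Du S N j x := by
        unfold Du
        rw [pt_add2 hN]
      rw [e, add_comm]
      exact ih j (by omega)

variable {S} in
theorem le_mm {N : ℕ} (h : Pairs S N) (hN : 0 < N) (x : M) : π ≤ mm S N x := by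
  have : Nonempty (Fin N) := ⟨⟨0, hN⟩⟩
  exact le_ciInf fun i => h.sum hN i x

variable {S} in
theorem mm_lip {N : ℕ} (hN : 0 < N) (x y : M) : |mm S N x - mm S N y| ≤ 2 * dist x y := by
  have : Nonempty (Fin N) := ⟨⟨0, hN⟩⟩
  have key : ∀ x y : M, mm S N x ≤ mm S N y + 2 * dist x y := by
    intro x y
    rw [← sub_le_iff_le_add]
    apply le_ciInf
    intro i
    have h1 : mm S N x ≤ Du S N i x + Du S N (i + N) x :=
      ciInf_le (Set.finite_range _).bddBelow i
    have h2 := (abs_le.1 (Du_lip S N i x y)).2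
    have h3 := (abs_le.1 (Du_lip S N (i + N) x y)).2
    linarith
  rw [abs_le]
  have h1 := key x y
  have h2 := key y x
  rw [dist_comm y x] at h2
  constructor <;> linarith

/-- the density with the weight `(π / m)²` -/
noncomputable def wdens (N : ℕ) (k : Fin S.faces) (x : ℝ × ℝ) : ℝ :=
  (π / mm S N (S.chart k x)) ^ 2 * dens (S.metric k) x

variable {S} in
theorem wdens_int {N : ℕ} (h : Pairs S N) (hN : 0 < N) (k : Fin S.faces) :
    IntegrableOn (wdens S N k) Sq := by
  have hpi := Real.pi_pos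
  have hl : SegLip (S.metric k) (fun p => mm S N (S.chart k p) / 2) := by
    apply segLip S (V := fun y => mm S N y / 2)
    intro a b
    have := mm_lip (S := S) hN a b
    rw [← sub_div, abs_div, abs_of_pos (by norm_num : (0 : ℝ) < 2)]
    linarith
  obtain ⟨C, hC0, hC⟩ := (S.metric k).exists_bound
  have hc2 : ContinuousOn (fun p => mm S N (S.chart k p) / 2) Sq := by
    rw [Metric.continuousOn_iff]
    intro x hx ε hε
    refine ⟨ε / (C + 1), by positivity, fun p hp hpx => ?_⟩
    have h3 := hl.lipschitz hC hx hp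
    rw [Real.dist_eq]
    refine h3.trans_lt ?_
    rw [dist_eq_norm] at hpx
    have h4 : ‖p - x‖ * (C + 1) < ε := by rwa [lt_div_iff₀ (by positivity)] at hpx
    nlinarith [norm_nonneg (p - x)]
  have hc : ContinuousOn (fun p => mm S N (S.chart k p)) Sq := by
    have := hc2.mul (continuousOn_const (c := (2 : ℝ)))
    refine this.congr (fun p _ => ?_)
    simp
  apply ContinuousOn.integrableOn_compact isCompact_Sq
  unfold wdens
  apply ContinuousOn.mul
  · apply ContinuousOn.pow
    apply continuousOn_const.div hc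
    intro p _
    have := le_mm h hN (S.chart k p)
    linarith
  · unfold dens
    apply ContinuousOn.sqrt
    exact ((S.metric k).continuousOn_E.mul (S.metric k).continuousOn_G).sub
      ((S.metric k).continuousOn_F.pow 2)

variable {S} in
/-- the gradient of `π u / (u + v)` has length at most `π / m` -/
theorem Wf_deriv {N : ℕ} (h : Pairs S N) (hN : 0 < N) (k : Fin S.faces) (i : ℕ) {x : ℝ × ℝ}
    (hx : x ∈ Sqo) (hd0 : DifferentiableAt ℝ (fun p => Wf S N i (S.chart k p)) x)
    (hd1 : DifferentiableAt ℝ (fun p => Du S N i (S.chart k p)) x)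
    (hd2 : DifferentiableAt ℝ (fun p => Du S N (i + N) (S.chart k p)) x) (z : ℝ × ℝ) :
    (fderiv ℝ (fun p => Wf S N i (S.chart k p)) x z) ^ 2 ≤
      (π / mm S N (S.chart k x)) ^ 2 * ((S.metric k).E x * z.1 ^ 2 +
        2 * (S.metric k).F x * z.1 * z.2 + (S.metric k).G x * z.2 ^ 2) := by
  have hpi := Real.pi_pos
  set y := S.chart k x with hy
  set u := Du S N i y with hu
  set v := Du S N (i + N) y with hv
  have hu0 : 0 ≤ u := Du_nonneg _ _ _ _
  have hv0 : 0 ≤ v := Du_nonneg _ _ _ _
  have hs : π ≤ u + v := h.sum hN i y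
  have hm : mm S N y ≤ u + v := mm_le h hN i y
  have hm0 : π ≤ mm S N y := le_mm h hN y
  have hsp : 0 < u + v := by linarith
  have hmp : 0 < mm S N y := by linarith
  set q := (S.metric k).E x * z.1 ^ 2 +
        2 * (S.metric k).F x * z.1 * z.2 + (S.metric k).G x * z.2 ^ 2 with hq
  have k1 := (segLip S (Du_lip S N i) k).deriv_le hx hd1 z
  have k2 := (segLip S (Du_lip S N (i + N)) k).deriv_le hx hd2 z
  set a := fderiv ℝ (fun p => Du S N i (S.chart k p)) x z with ha
  set b := fderiv ℝ (fun p => Du S N (i + N) (S.chart k p)) x z with hb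
  have hq0 : 0 ≤ q := (sq_nonneg a).trans k1
  have hprod : (fun p => Wf S N i (S.chart k p) *
      (Du S N i (S.chart k p) + Du S N (i + N) (S.chart k p))) =
      fun p => π * Du S N i (S.chart k p) := by
    funext p
    have hne : Du S N i (S.chart k p) + Du S N (i + N) (S.chart k p) ≠ 0 := by
      have := h.sum hN i (S.chart k p)
      linarith
    unfold Wf
    field_simp
  have hR := hd1.hasFDerivAt.const_mul π
  have hL : HasFDerivAt (fun p => Wf S N i (S.chart k p) *
      (Du S N i (S.chart k p) + Du S N (i + N) (S.chart k p))) _ x :=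
    hd0.hasFDerivAt.mul (hd1.hasFDerivAt.add hd2.hasFDerivAt)
  rw [hprod] at hL
  have e0 := congrArg (fun L : (ℝ × ℝ) →L[ℝ] ℝ => L z) (hL.unique hR)
  simp only [_root_.smul_apply, _root_.add_apply, smul_eq_mul] at e0
  rw [← ha, ← hb] at e0
  have hWv : Wf S N i (S.chart k x) = π * u / (u + v) := rfl
  have e1 : fderiv ℝ (fun p => Wf S N i (S.chart k p)) x z =
      π * (v * a - u * b) / (u + v) ^ 2 := by
    set w := fderiv ℝ (fun p => Wf S N i (S.chart k p)) x z with hw
    have e2 : (u + v) * w = π * a - π * u / (u + v) * (a + b) := by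
      rw [hWv] at e0
      have e3 : Du S N i (S.chart k x) + Du S N (i + N) (S.chart k x) = u + v := rfl
      linarith [e0]
    rw [eq_div_iff (by positivity)]
    have e4 : w * (u + v) ^ 2 = ((u + v) * w) * (u + v) := by ring
    rw [e4, e2]
    field_simp
    ring
  rw [e1]
  have hsq := Real.sq_sqrt hq0
  have ha' : |a| ≤ √q := Real.abs_le_sqrt k1
  have hb' : |b| ≤ √q := Real.abs_le_sqrt k2
  have h1 : |v * a - u * b| ≤ (u + v) * √q := by
    refine (abs_sub _ _).trans ?_
    rw [abs_mul, abs_mul, abs_of_nonneg hu0, abs_of_nonneg hv0]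
    nlinarith
  have h2 : |π * (v * a - u * b) / (u + v) ^ 2| ≤ π / mm S N y * √q := by
    rw [abs_div, abs_mul, abs_of_pos hpi, abs_of_pos (by positivity : 0 < (u + v) ^ 2),
      div_le_iff₀ (by positivity)]
    have h3 : π * |v * a - u * b| ≤ π * ((u + v) * √q) := mul_le_mul_of_nonneg_left h1 hpi.le
    refine h3.trans ?_
    have h4 : π / mm S N y * √q * (u + v) ^ 2 =
        (π * ((u + v) * √q)) * ((u + v) / mm S N y) := by
      field_simp
    rw [h4]
    have h5 : 1 ≤ (u + v) / mm S N y := (one_le_div hmp).2 hm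
    exact le_mul_of_one_le_right (by positivity) h5
  calc (π * (v * a - u * b) / (u + v) ^ 2) ^ 2 = |π * (v * a - u * b) / (u + v) ^ 2| ^ 2 :=
        (sq_abs _).symm
    _ ≤ (π / mm S N y * √q) ^ 2 := by gcongr
    _ = (π / mm S N y) ^ 2 * q := by rw [mul_pow, hsq]

/-- The bound for the weighted area from the finite inequality. -/
theorem weight_ge_lattice (P : Par) (N n : ℕ) (hNn : N = 2 * n) (hn : 1 ≤ n)
    (s2 : ℕ) (hs2 : 0 < s2) (hS : Pairs S N)
    (hfb : ∀ (a : ℕ → ℕ), (∀ i, a (i + N) + a i = N) →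
      (∀ i, a i ≤ a (i + 1) + 1 ∧ a (i + 1) ≤ a i + 1) → ∀ (X Y : ℕ → ℝ),
      (∀ i, X (i + N) = -X i) → (∀ i, Y (i + N) = -Y i) → ∀ (B : ℝ),
      (∀ i, X i ^ 2 + Y i ^ 2 ≤ B) → 2 * Fsum P a X Y N ≤ B * s2) :
    (π / (2 * N)) ^ 2 / s2 * ∑ i ∈ range N, ∑ j ∈ range i, ∑ k ∈ range (N + 1),
      ∑ l ∈ range (N + 1), cv P (i - j) k l *
        (∑ q ∈ range (4 * N), ((cl l (uu N j q) * cl k (uu N i (q + 1)) : ℕ) : ℝ)
        - ∑ q ∈ range (4 * N), ((cl l (uu N j (q + 1)) * cl k (uu N i q) : ℕ) : ℝ))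
      ≤ ∑ k, ∫ x in Sq, wdens S N k x := by
  have hN : 0 < N := by omega
  have hNr : (0 : ℝ) < N := by exact_mod_cast hN
  have hs2r : (0 : ℝ) < s2 := by exact_mod_cast hs2
  set h : ℝ := π / N with hh
  have hh0 : 0 < h := by positivity
  have hπh : π = 2 * n * h := by
    rw [hh, hNn]; push_cast
    have : (n : ℝ) ≠ 0 := by
      have : n ≠ 0 := by omega
      exact_mod_cast this
    field_simp
  set G : ℕ → M → ℝ := Wf S N with hG
  set UU : ℕ → ℕ → M → ℝ := fun i k x => clp h k (G i x) with hUU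
  have hUUl : ∀ i k x y, |UU i k x - UU i k y| ≤ dist x y := fun i k x y =>
    (clp_lip h k _ _).trans (Wf_lip hS hN i x y)
  refine ge_of_cal S (PI N)
    (fun p => if p.2.1 < p.1 then 2 * cv P (p.1 - p.2.1) p.2.2.1 p.2.2.2 / s2 else 0)
    (fun p => UU p.2.1 p.2.2.2) (fun p => UU p.1 p.2.2.1)
    (fun p => hUUl _ _) (fun p => hUUl _ _)
    (wdens S N) (wdens_int hS hN) ?_ _ ?_
  · intro c
    have hseg : ∀ (V : M → ℝ), (∀ x y, |V x - V y| ≤ dist x y) →
        SegLip (S.metric c) (fun p => V (S.chart c p)) := by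
      intro V hV p hp q hq
      refine (hV _ _).trans ?_
      rw [dist_comm]
      exact S.dist_le c p hp q hq
    have hd1 : ∀ᵐ x ∂(volume.restrict Sqo), ∀ i : ℕ,
        DifferentiableAt ℝ (fun p => G i (S.chart c p)) x := by
      rw [ae_all_iff]
      intro i
      exact (hseg _ (Wf_lip hS hN i)).ae_diff
    have hd2 : ∀ᵐ x ∂(volume.restrict Sqo), ∀ i k : ℕ,
        DifferentiableAt ℝ (fun p => UU i k (S.chart c p)) x := by
      rw [ae_all_iff]
      intro i
      rw [ae_all_iff]
      intro k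
      exact (hseg _ (hUUl i k)).ae_diff
    have hd0 : ∀ᵐ x ∂(volume.restrict Sqo), ∀ i : ℕ,
        DifferentiableAt ℝ (fun p => Du S N i (S.chart c p)) x := by
      rw [ae_all_iff]
      intro i
      exact (hseg _ (Du_lip S N i)).ae_diff
    filter_upwards [hd0, hd1, hd2, self_mem_ae_restrict isOpen_Sqo.measurableSet]
      with x hx0 hx1 hx2 hxo
    have hxS : x ∈ Sq := Sqo_sub hxo
    show _ ≤ (π / mm S N (S.chart c x)) ^ 2 * √((S.metric c).E x * (S.metric c).G x - (S.metric c).F x ^ 2)
    set E := (S.metric c).E x with hE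
    set F := (S.metric c).F x with hF
    set Gm := (S.metric c).G x with hGm
    have hEpos : 0 < E := (S.metric c).pos_E x hxS
    have hDet : 0 < E * Gm - F ^ 2 := (S.metric c).pos_det x hxS
    set Dt := √(E * Gm - F ^ 2) with hDt
    have hDtpos : 0 < Dt := Real.sqrt_pos.mpr hDet
    set f : ℕ → ℝ × ℝ → ℝ := fun i p => G i (S.chart c p) with hf
    set a : ℕ → ℕ := fun i => rnd n (f i x / h) with ha
    set A1 : ℕ → ℝ := fun i => fderiv ℝ (f i) x (1, 0) with hA1
    set A2 : ℕ → ℝ := fun i => fderiv ℝ (f i) x (0, 1) with hA2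
    have hf0 : ∀ i, 0 ≤ f i x := fun i => (Wf_range hS hN _ _).1
    have hf1 : ∀ i, f i x ≤ 2 * n * h := fun i => by
      rw [← hπh]; exact (Wf_range hS hN _ _).2
    have hfN : ∀ i, f (i + N) = fun p => π - f i p := by
      intro i
      funext p
      exact Wf_anti hS hN _ _
    -- periodicity of the rounding
    have haper : ∀ i, a (i + N) + a i = N := by
      intro i
      simp only [ha]
      have e1 : f (i + N) x / h = 2 * n - f i x / h := by
        rw [hfN]
        simp only
        rw [sub_div, hπh]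
        field_simp
      rw [e1, rnd_compl n (div_nonneg (hf0 i) hh0.le) (by
        rw [div_le_iff₀ hh0]; exact hf1 i), hNn]
    have haadj : ∀ i, a i ≤ a (i + 1) + 1 ∧ a (i + 1) ≤ a i + 1 := by
      intro i
      have e0 : |f (i + 1) x - f i x| ≤ h := Wf_adj hS hN _ _
      have e1 : |f (i + 1) x / h - f i x / h| ≤ 1 := by
        rw [← sub_div, abs_div, abs_of_pos hh0, div_le_one hh0]
        exact e0
      have e2 : |f i x / h - f (i + 1) x / h| ≤ 1 := by rw [abs_sub_comm]; exact e1
      exact ⟨rnd_adj n e2 (div_nonneg (hf0 _) hh0.le), rnd_adj n e1 (div_nonneg (hf0 _) hh0.le)⟩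
    -- the covectors
    have hXper : ∀ i, Dt * A1 (i + N) = -(Dt * A1 i) := by
      intro i
      simp only [hA1]
      rw [hfN, fderiv_const_sub]
      simp
    have hYper : ∀ i, F * A1 (i + N) - E * A2 (i + N) = -(F * A1 i - E * A2 i) := by
      intro i
      simp only [hA1, hA2]
      rw [hfN, fderiv_const_sub]
      simp only [_root_.neg_apply]
      ring
    set κ : ℝ := π / mm S N (S.chart c x) with hκ
    have hκ0 : 0 < κ := by
      have := le_mm hS hN (S.chart c x)
      have hpi := Real.pi_pos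
      rw [hκ]
      exact div_pos hpi (by linarith)
    have hnorm : ∀ i, (Dt * A1 i) ^ 2 + (F * A1 i - E * A2 i) ^ 2 ≤ κ ^ 2 * (E * Dt ^ 2) := by
      intro i
      have hdb := dual_bound (a := A1 i / κ) (b := A2 i / κ) hEpos hDet (by
        intro v w
        have h2 := Wf_deriv hS hN c i hxo (hx1 i) (hx0 i) (hx0 (i + N)) (v, w)
        have h3 : fderiv ℝ (fun p => Wf S N i (S.chart c p)) x (v, w)
            = A1 i * v + A2 i * w := by
          have : ((v, w) : ℝ × ℝ) = v • (1, 0) + w • (0, 1) := by simp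
          rw [this, map_add, map_smul, map_smul, smul_eq_mul, smul_eq_mul]
          simp only [hA1, hA2, hf, hG]
          ring
        rw [h3] at h2
        have h4 : (A1 i / κ * v + A2 i / κ * w) ^ 2 = (A1 i * v + A2 i * w) ^ 2 / κ ^ 2 := by
          field_simp
        rw [h4, div_le_iff₀ (by positivity)]
        refine h2.trans (le_of_eq ?_)
        ring)
      have h5 : (Dt * A1 i) ^ 2 + (F * A1 i - E * A2 i) ^ 2 =
          κ ^ 2 * ((Dt * (A1 i / κ)) ^ 2 + (F * (A1 i / κ) - E * (A2 i / κ)) ^ 2) := by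
        field_simp
      rw [h5]
      exact mul_le_mul_of_nonneg_left hdb (by positivity)
    have hfin := hfb a haper haadj
      (fun i => Dt * A1 i) (fun i => F * A1 i - E * A2 i) hXper hYper (κ ^ 2 * (E * Dt ^ 2)) hnorm
    -- the Jacobians
    have hjac : ∀ i j k l, k ≤ N → l ≤ N →
        jac (fun p => UU j l (S.chart c p)) (fun p => UU i k (S.chart c p)) x
        = if k = a i then (if l = a j then A1 j * A2 i - A2 j * A1 i else 0) else 0 := by
      intro i j k l hk hl
      have e1 := fderiv_clp hh0 n (f i) x (hf0 i) (hf1 i) (hx1 i)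
        (fun k _ => hx2 i k) k (by omega)
      have e2 := fderiv_clp hh0 n (f j) x (hf0 j) (hf1 j) (hx1 j)
        (fun k _ => hx2 j k) l (by omega)
      have e1' : fderiv ℝ (fun p => UU i k (S.chart c p)) x
          = if k = a i then fderiv ℝ (f i) x else 0 := e1
      have e2' : fderiv ℝ (fun p => UU j l (S.chart c p)) x
          = if l = a j then fderiv ℝ (f j) x else 0 := e2
      unfold jac
      rw [e1', e2']
      split_ifs <;> simp [hA1, hA2]
    have hsum : ∑ p ∈ PI N, (if p.2.1 < p.1 then 2 * cv P (p.1 - p.2.1) p.2.2.1 p.2.2.2 / s2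
          else 0) * jac (fun y => UU p.2.1 p.2.2.2 (S.chart c y))
            (fun y => UU p.1 p.2.2.1 (S.chart c y)) x
        = ∑ i ∈ range N, ∑ j ∈ range i, 2 * cv P (i - j) (a i) (a j) / s2
            * (A1 j * A2 i - A2 j * A1 i) := by
      have g1 : ∀ p ∈ PI N, (if p.2.1 < p.1 then 2 * cv P (p.1 - p.2.1) p.2.2.1 p.2.2.2 / s2
          else 0) * jac (fun y => UU p.2.1 p.2.2.2 (S.chart c y))
            (fun y => UU p.1 p.2.2.1 (S.chart c y)) x
          = (if p.2.1 < p.1 then 2 * cv P (p.1 - p.2.1) p.2.2.1 p.2.2.2 / s2 *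
            (if p.2.2.1 = a p.1 then (if p.2.2.2 = a p.2.1 then
              A1 p.2.1 * A2 p.1 - A2 p.2.1 * A1 p.1 else 0) else 0) else 0) := by
        intro p hp
        unfold PI at hp
        simp only [Finset.mem_product, Finset.mem_range] at hp
        rw [hjac p.1 p.2.1 p.2.2.1 p.2.2.2 (by omega) (by omega)]
        split_ifs <;> simp
      rw [Finset.sum_congr rfl g1, sum_PI N (fun i j k l => 2 * cv P (i - j) k l / s2 *
            (if k = a i then (if l = a j then A1 j * A2 i - A2 j * A1 i else 0) else 0))]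
      apply Finset.sum_congr rfl
      intro i _
      apply Finset.sum_congr rfl
      intro j _
      have hai : a i ∈ range (N + 1) := by
        have := haper i
        exact Finset.mem_range.mpr (by omega)
      have haj : a j ∈ range (N + 1) := by
        have := haper j
        exact Finset.mem_range.mpr (by omega)
      rw [Finset.sum_eq_single_of_mem (a i) hai, Finset.sum_eq_single_of_mem (a j) haj]
      · simp
      · intro l _ hl
        simp [hl]
      · intro k _ hk
        simp [hk]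
    rw [hsum]
    have hmul : 2 * Fsum P a (fun i => Dt * A1 i) (fun i => F * A1 i - E * A2 i) N
        = (Dt * E * s2) * ∑ i ∈ range N, ∑ j ∈ range i, 2 * cv P (i - j) (a i) (a j) / s2
            * (A1 j * A2 i - A2 j * A1 i) := by
      unfold Fsum
      rw [Finset.mul_sum, Finset.mul_sum]
      apply Finset.sum_congr rfl
      intro i _
      rw [Finset.mul_sum, Finset.mul_sum]
      apply Finset.sum_congr rfl
      intro j _
      field_simp
      ring
    rw [hmul] at hfin
    have hpos : 0 < Dt * E * s2 := by positivity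
    have e4 : κ ^ 2 * (E * Dt ^ 2) * s2 = (Dt * E * s2) * (κ ^ 2 * Dt) := by ring
    rw [e4] at hfin
    exact le_of_mul_le_mul_left hfin hpos
  · -- the boundary
    have hb : ∀ i k (t : ℝ), UU i k (S.boundary (t : AddCircle (2 * π)))
        = clp (π / N) k (rho ((i : ℝ) * (π / N) - t)) := by
      intro i k t
      simp only [hUU, hG]
      rw [Wf_bdry hS hN]
    have hlim : ∀ p ∈ PI N, Tendsto (fun m : ℕ =>
        (if p.2.1 < p.1 then 2 * cv P (p.1 - p.2.1) p.2.2.1 p.2.2.2 / s2 else 0) *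
        (loopSum S.brk (fun t => UU p.2.1 p.2.2.2 (S.boundary (t : AddCircle (2 * π))))
          (fun t => UU p.1 p.2.2.1 (S.boundary (t : AddCircle (2 * π)))) m / 2)) atTop
        (𝓝 ((if p.2.1 < p.1 then 2 * cv P (p.1 - p.2.1) p.2.2.1 p.2.2.2 / s2 else 0) *
          (pp (fun t => clp (π / N) p.2.2.2 (rho ((p.2.1 : ℝ) * (π / N) - t)))
            (fun t => clp (π / N) p.2.2.1 (rho ((p.1 : ℝ) * (π / N) - t)))
            (π / (2 * N)) (4 * N) / 2))) := by
      intro p _
      apply Tendsto.const_mul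
      apply Tendsto.div_const
      simp only [hb]
      apply tendsto_loopSum S.brk S.brk_strictMono S.brk_zero (by positivity) (4 * N) (by
        rw [S.brk_last]; push_cast; field_simp; ring) (pwAff_clp hN _ _) (pwAff_clp hN _ _)
        (zero_le_one) (clp_rho_lip N _ _) (clp_rho_lip N _ _)
    have hlim2 := tendsto_finsetSum (PI N) hlim
    convert hlim2 using 2
    have g1 : ∀ p ∈ PI N, (if p.2.1 < p.1 then 2 * cv P (p.1 - p.2.1) p.2.2.1 p.2.2.2 / s2
          else 0) * (pp (fun t => clp (π / N) p.2.2.2 (rho ((p.2.1 : ℝ) * (π / N) - t)))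
            (fun t => clp (π / N) p.2.2.1 (rho ((p.1 : ℝ) * (π / N) - t)))
            (π / (2 * N)) (4 * N) / 2)
        = (if p.2.1 < p.1 then (π / (2 * N)) ^ 2 / s2 * (cv P (p.1 - p.2.1) p.2.2.1 p.2.2.2 *
          (∑ q ∈ range (4 * N), ((cl p.2.2.2 (uu N p.2.1 q) *
              cl p.2.2.1 (uu N p.1 (q + 1)) : ℕ) : ℝ)
          - ∑ q ∈ range (4 * N), ((cl p.2.2.2 (uu N p.2.1 (q + 1)) *
              cl p.2.2.1 (uu N p.1 q) : ℕ) : ℝ))) else 0) := by
      intro p _
      rw [pp_clp hN]
      split_ifs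
      · ring
      · ring
    rw [Finset.sum_congr rfl g1, sum_PI N (fun i j k l => (π / (2 * N)) ^ 2 / s2 *
      (cv P (i - j) k l *
        (∑ q ∈ range (4 * N), ((cl l (uu N j q) * cl k (uu N i (q + 1)) : ℕ) : ℝ)
        - ∑ q ∈ range (4 * N), ((cl l (uu N j (q + 1)) * cl k (uu N i q) : ℕ) : ℝ))))]
    rw [Finset.mul_sum]
    apply Finset.sum_congr rfl
    intro i _
    rw [Finset.mul_sum]
    apply Finset.sum_congr rfl
    intro j _
    rw [Finset.mul_sum]
    apply Finset.sum_congr rfl
    intro k _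
    rw [Finset.mul_sum]


/-- **The weighted area is at least `1.901 π`.** -/
theorem weight_area (hS : Pairs S 14) :
    1.901 * π ≤ ∑ k, ∫ x in Sq, wdens S 14 k x := by
  have h1 := weight_ge_lattice S Pool.Agent.TH502.FA.N14.P 14 7 (by norm_num) (by norm_num)
    400000 (by norm_num) hS Pool.Agent.TH502.FA.N14.bound
  have h2 := flux_eq Pool.Agent.TH502.FA.N14.P 14 189763336 Pool.Agent.TH502.FA.N14.flux
  have hpi := Real.pi_gt_d6
  have hpos := Real.pi_pos
  refine le_trans ?_ h1
  have h3 : (π / (2 * (14 : ℕ))) ^ 2 / (400000 : ℕ) * (189763336 : ℕ) ≤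
      (π / (2 * (14 : ℕ))) ^ 2 / (400000 : ℕ) * (∑ i ∈ range 14, ∑ j ∈ range i,
        ∑ k ∈ range (14 + 1), ∑ l ∈ range (14 + 1), cv Pool.Agent.TH502.FA.N14.P (i - j) k l *
        (∑ q ∈ range (4 * 14), ((cl l (uu 14 j q) * cl k (uu 14 i (q + 1)) : ℕ) : ℝ)
        - ∑ q ∈ range (4 * 14), ((cl l (uu 14 j (q + 1)) * cl k (uu 14 i q) : ℕ) : ℝ))) :=
    mul_le_mul_of_nonneg_left h2 (by positivity)
  refine le_trans ?_ h3
  push_cast
  have h4 : (π / (2 * 14)) ^ 2 / 400000 * 189763336 =
      (189763336 / (4 * 14 ^ 2 * 400000)) * π ^ 2 := by ring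
  rw [h4]
  nlinarith

end

end Pool.Agent.R248.FA
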